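import Mathlib

set_option autoImplicit false

/-!
# Word lengths, and length functions which are bounded on the kernel of a map to the integers
-/

open Pointwise

namespace Pool.Agent.Q104.QP

section word

variable {Γ : Type*} [Group Γ]

/-- The word length. -/
noncomputable def wl (S : Set Γ) (g : Γ) : ℕ := sInf {n : ℕ | g ∈ (S ∪ S⁻¹) ^ n}

theorem wl_le {S : Set Γ} {g : Γ} {n : ℕ} (h : g ∈ (S ∪ S⁻¹) ^ n) : wl S g ≤ n := Nat.sInf_le h

theorem exists_word {S : Set Γ} (hS : Subgroup.closure S = ⊤) (g : Γ) :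
    ∃ n : ℕ, g ∈ (S ∪ S⁻¹) ^ n := by
  have hg : g ∈ Subgroup.closure S := by rw [hS]; trivial
  induction hg using Subgroup.closure_induction with
  | mem x hx => exact ⟨1, by rw [pow_one]; exact Or.inl hx⟩
  | one => exact ⟨0, by rw [pow_zero]; rfl⟩
  | mul x y _ _ hx hy =>
    obtain ⟨n, hn⟩ := hx
    obtain ⟨m, hm⟩ := hy
    exact ⟨n + m, by rw [pow_add]; exact Set.mul_mem_mul hn hm⟩
  | inv x _ hx =>
    obtain ⟨n, hn⟩ := hx
    refine ⟨n, ?_⟩
    have : ((S ∪ S⁻¹) ^ n)⁻¹ = (S ∪ S⁻¹) ^ n := by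
      rw [← inv_pow, Set.union_inv, inv_inv, Set.union_comm]
    rw [← this]
    exact Set.inv_mem_inv.2 hn

theorem wl_spec {S : Set Γ} (hS : Subgroup.closure S = ⊤) (g : Γ) : g ∈ (S ∪ S⁻¹) ^ wl S g :=
  Nat.sInf_mem (exists_word hS g)

theorem wl_mul {S : Set Γ} (hS : Subgroup.closure S = ⊤) (g h : Γ) :
    wl S (g * h) ≤ wl S g + wl S h := by
  apply wl_le
  rw [pow_add]
  exact Set.mul_mem_mul (wl_spec hS g) (wl_spec hS h)

theorem wl_inv {S : Set Γ} (hS : Subgroup.closure S = ⊤) (g : Γ) : wl S g⁻¹ = wl S g := by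
  have key : ∀ g, wl S g⁻¹ ≤ wl S g := by
    intro g
    apply wl_le
    have : ((S ∪ S⁻¹) ^ wl S g)⁻¹ = (S ∪ S⁻¹) ^ wl S g := by
      rw [← inv_pow, Set.union_inv, inv_inv, Set.union_comm]
    rw [← this]
    exact Set.inv_mem_inv.2 (wl_spec hS g)
  apply le_antisymm (key g)
  have := key g⁻¹
  rwa [inv_inv] at this

theorem wl_one (S : Set Γ) : wl S 1 = 0 :=
  Nat.le_zero.1 (wl_le (by rw [pow_zero]; rfl))

theorem wl_mem {S : Set Γ} {g : Γ} (h : g ∈ S) : wl S g ≤ 1 :=
  wl_le (by rw [pow_one]; exact Or.inl h)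

end word

/-- Every exponential beats every linear function. -/
theorem exp_beats (a b c' : ℝ) (hc : 0 < c') : ∃ i₀ : ℕ, ∀ i : ℕ, i₀ ≤ i → a * i + b ≤ c' * 2 ^ i := by
  have h1 := tendsto_pow_const_div_const_pow_of_one_lt 1 (one_lt_two : (1 : ℝ) < 2)
  have h2 := tendsto_pow_const_div_const_pow_of_one_lt 0 (one_lt_two : (1 : ℝ) < 2)
  have h3 := (h1.const_mul a).add (h2.const_mul b)
  rw [mul_zero, mul_zero, add_zero] at h3
  have h4 := h3.eventually (gt_mem_nhds hc)
  obtain ⟨i₀, hi₀⟩ := Filter.eventually_atTop.1 h4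
  refine ⟨i₀, fun i hi => ?_⟩
  have h5 := hi₀ i hi
  have h6 : (0 : ℝ) < 2 ^ i := by positivity
  have h7 : a * ((i : ℝ) ^ 1 / 2 ^ i) + b * ((i : ℝ) ^ 0 / 2 ^ i) = (a * i + b) / 2 ^ i := by
    field_simp
    try ring
  rw [h7, div_lt_iff₀ h6] at h5
  exact h5.le

/-- Hyperbolicity of a length function of the integers of linear growth gives convergence at
infinity. -/
theorem line_end (f : ℤ → ℝ) (δ : ℝ) (h0 : f 0 = 0) (hneg : ∀ k, f (-k) = f k)
    (hadd : ∀ k l, f (k + l) ≤ f k + f l)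
    (hδ : ∀ k l m : ℤ, min ((f k + f l - f (l - k)) / 2) ((f l + f m - f (m - l)) / 2) - δ ≤
      (f k + f m - f (m - k)) / 2)
    (c' B : ℝ) (hc : 0 < c') (hB : ∀ k : ℕ, c' * k - B ≤ f k) (K : ℝ) :
    ∃ N : ℕ, ∀ k l : ℕ, N ≤ k → N ≤ l → K ≤ (f k + f l - f (l - k)) / 2 := by
  set F : ℤ → ℤ → ℝ := fun k l => (f k + f l - f (l - k)) / 2 with hF
  have hF' : ∀ k l m, min (F k l) (F l m) - δ ≤ F k m := hδ
  have hδ0 : 0 ≤ δ := by
    have := hF' 0 0 0
    rw [min_self] at this
    linarith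
  have hsymm : ∀ k l, F k l = F l k := by
    intro k l
    simp only [hF]
    rw [← hneg (l - k), neg_sub]
    ring
  have hf1 : 0 ≤ f 1 := by
    have := hadd 1 (-1)
    rw [hneg, add_neg_cancel, h0] at this
    linarith
  have c1 : ∀ i : ℕ, ∀ k l : ℕ, k ≤ l → l ≤ k + 2 ^ i → c' * k - (B + f 1) - i * δ ≤ F k l := by
    intro i
    induction i with
    | zero =>
      intro k l h1 h2
      have hk := hB k
      rcases h1.eq_or_lt with rfl | h1
      · simp only [hF, sub_self, h0]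
        push_cast
        linarith
      · have : l = k + 1 := by omega
        subst this
        have h3 := hadd (k + 1) (-1)
        rw [hneg] at h3
        have e1 : (k : ℤ) + 1 + -1 = k := by ring
        have e2 : ((k + 1 : ℕ) : ℤ) - k = 1 := by push_cast; ring
        rw [e1] at h3
        simp only [hF, e2]
        push_cast
        linarith
    | succ i ih =>
      intro k l h1 h2
      set m := min l (k + 2 ^ i) with hm
      have hkm : k ≤ m := le_min h1 (by omega)
      have h3 := ih k m hkm (min_le_right _ _)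
      have h4 := ih m l (min_le_left _ _) (by
        rw [pow_succ] at h2
        rcases min_choice l (k + 2 ^ i) with h | h <;> rw [hm, h] <;> omega)
      have h5 := hF' k m l
      have h6 : c' * k ≤ c' * m := by
        apply mul_le_mul_of_nonneg_left _ hc.le
        exact_mod_cast hkm
      have h7 : c' * k - (B + f 1) - i * δ ≤ min (F k m) (F m l) := le_min h3 (by linarith)
      push_cast
      linarith
  obtain ⟨i₀, hi₀⟩ := exp_beats (δ + (δ + 1)) (B + f 1 + δ) c' hc
  have c2 : ∀ e : ℕ, ∀ i : ℕ, i₀ ≤ i → ∀ l : ℕ, 2 ^ i ≤ l → l ≤ 2 ^ (i + e) →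
      i * (δ + 1) ≤ F ((2 ^ i : ℕ)) l := by
    intro e
    induction e with
    | zero =>
      intro i hi l h1 h2
      have h3 := c1 i (2 ^ i) l h1 (by rw [add_zero] at h2; omega)
      have h4 := hi₀ i hi
      push_cast at h3 ⊢
      nlinarith
    | succ e ih =>
      intro i hi l h1 h2
      have h4 := hi₀ i hi
      rcases le_or_gt l (2 ^ (i + 1)) with h5 | h5
      · have h3 := c1 i (2 ^ i) l h1 (by rw [pow_succ] at h5; omega)
        push_cast at h3 ⊢
        nlinarith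
      · have h6 := ih (i + 1) (by omega) l h5.le (by
          rw [show i + 1 + e = i + (e + 1) by ring]; exact h2)
        have h3 := c1 i (2 ^ i) (2 ^ (i + 1)) (by rw [pow_succ]; omega) (by rw [pow_succ]; omega)
        have h7 := hF' ((2 ^ i : ℕ)) ((2 ^ (i + 1) : ℕ)) l
        have h8 : i * (δ + 1) + δ ≤ min (F ((2 ^ i : ℕ)) ((2 ^ (i + 1) : ℕ)))
            (F ((2 ^ (i + 1) : ℕ)) l) := by
          apply le_min
          · push_cast at h3 ⊢
            nlinarith
          · push_cast at h6 ⊢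
            nlinarith
        linarith
  obtain ⟨n, hn⟩ := exists_nat_ge (K + δ)
  set i := max n i₀ with hi
  have hin : K + δ ≤ i := hn.trans (by exact_mod_cast le_max_left _ _)
  have c3 : ∀ l : ℕ, 2 ^ i ≤ l → (i : ℝ) ≤ F ((2 ^ i : ℕ)) l := by
    intro l hl
    have := c2 l i (le_max_right _ _) l hl (by
      have h1 : l < 2 ^ l := Nat.lt_two_pow_self
      have h2 : 2 ^ l ≤ 2 ^ (i + l) := Nat.pow_le_pow_right (by norm_num) (by omega)
      omega)
    have h0i : (0 : ℝ) ≤ i := by positivity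
    nlinarith
  refine ⟨2 ^ i, fun k l hk hl => ?_⟩
  have h1 := c3 k hk
  have h2 := c3 l hl
  rw [hsymm] at h1
  have h3 := hF' k ((2 ^ i : ℕ)) l
  have h4 : (i : ℝ) ≤ min (F k ((2 ^ i : ℕ))) (F ((2 ^ i : ℕ)) l) := le_min h1 h2
  show K ≤ F k l
  linarith

end Pool.Agent.Q104.QP
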