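import Mathlib

set_option autoImplicit false

/-!
# Length functions are bounded on the first factor of an unrestricted wreath product
-/

namespace Pool.Agent.Q104.QP

open Equiv

/-- The shift of the `n`-th column. -/
def colShift (n : ℕ) : Perm (ℤ × ℕ) where
  toFun p := if p.2 = n then (p.1 + 1, p.2) else p
  invFun p := if p.2 = n then (p.1 - 1, p.2) else p
  left_inv p := by
    by_cases h : p.2 = n <;> simp [h]
    ext <;> simp [h]
  right_inv p := by
    by_cases h : p.2 = n <;> simp [h]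
    ext <;> simp [h]

theorem colShift_symm (n : ℕ) (p : ℤ × ℕ) :
    (colShift n).symm p = if p.2 = n then (p.1 - 1, p.2) else p := rfl

theorem bounded_of_wreath {A Γ : Type*} [Group A] [Group Γ] (l : Γ → ℕ)
    (hmul : ∀ g h, l (g * h) ≤ l g + l h) (hinv : ∀ g, l g⁻¹ = l g)
    (Φ : (ℤ × ℕ → A) →* Γ) (Ψ : Perm (ℤ × ℕ) →* Γ)
    (hΨ : ∀ (ρ : Perm (ℤ × ℕ)) (β : ℤ × ℕ → A), Ψ ρ * Φ β * (Ψ ρ)⁻¹ = Φ (β ∘ ρ.symm)) :
    ∃ C, ∀ a, l (Φ (Pi.mulSingle (0, 0) a)) ≤ C := by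
  by_contra hcon
  push Not at hcon
  choose a ha using fun n : ℕ => hcon (n + 2 * l (Ψ (swap (0, 0) (0, n))) + 2 * l (Ψ (colShift n)))
  set β : ℤ × ℕ → A := fun p => if 0 ≤ p.1 then a p.2 else 1 with hβ
  have key : ∀ n, Φ (Pi.mulSingle (0, 0) (a n)) = (Ψ (swap (0, 0) (0, n)))⁻¹ *
      (Φ β * (Ψ (colShift n) * (Φ β)⁻¹ * (Ψ (colShift n))⁻¹)) * Ψ (swap (0, 0) (0, n)) := by
    intro n
    rw [← map_inv Φ β, hΨ, ← map_mul, mul_assoc, eq_inv_mul_iff_mul_eq, ← mul_inv_eq_iff_eq_mul,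
      hΨ]
    congr 1
    funext p
    obtain ⟨i, m⟩ := p
    rw [Function.comp_apply, Pi.mul_apply, Function.comp_apply, Pi.inv_apply, symm_swap]
    by_cases hm : m = n
    · subst hm
      rw [colShift_symm, if_pos rfl]
      simp only [hβ]
      rcases lt_trichotomy i 0 with hi | rfl | hi
      · rw [if_neg (by omega), if_neg (by omega), inv_one, mul_one, Pi.mulSingle_eq_of_ne]
        rw [Ne, swap_apply_eq_iff, swap_apply_left]
        simp; omega
      · rw [if_pos (by omega), if_neg (by omega), inv_one, mul_one, swap_apply_right,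
          Pi.mulSingle_eq_same]
      · rw [if_pos (by omega), if_pos (by omega), mul_inv_cancel, Pi.mulSingle_eq_of_ne]
        rw [Ne, swap_apply_eq_iff, swap_apply_left]
        simp; omega
    · rw [colShift_symm, if_neg (by exact hm), mul_inv_cancel, Pi.mulSingle_eq_of_ne]
      rw [Ne, swap_apply_eq_iff, swap_apply_left]
      simp; intro _; exact hm
  have h1 := ha (2 * l (Φ β))
  rw [key] at h1
  set n := 2 * l (Φ β)
  have h2 := hmul ((Ψ (swap (0, 0) (0, n)))⁻¹ *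
      (Φ β * (Ψ (colShift n) * (Φ β)⁻¹ * (Ψ (colShift n))⁻¹))) (Ψ (swap (0, 0) (0, n)))
  have h3 := hmul (Ψ (swap (0, 0) (0, n)))⁻¹
      (Φ β * (Ψ (colShift n) * (Φ β)⁻¹ * (Ψ (colShift n))⁻¹))
  have h4 := hmul (Φ β) (Ψ (colShift n) * (Φ β)⁻¹ * (Ψ (colShift n))⁻¹)
  have h5 := hmul (Ψ (colShift n) * (Φ β)⁻¹) (Ψ (colShift n))⁻¹
  have h6 := hmul (Ψ (colShift n)) (Φ β)⁻¹
  rw [hinv] at h3 h5 h6
  omega

end Pool.Agent.Q104.QP
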