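import Pool.Agent.Q104.QP.Three
import Pool.Agent.Q104.QP.Wreath

set_option autoImplicit false

/-!
# Strong boundedness of vertex stabilisers
-/

namespace Pool.Agent.Q104.QP

open T Equiv

namespace G

/-- The vertices of the main line. -/
def Line : Set T := {x | ∀ i, x.lab i = 0}

open Classical in
/-- The position of the top nonzero label. -/
noncomputable def top (x : T) : ℕ :=
  Nat.find (p := fun k => ∀ i, k < i → x.lab i = 0) (by
    obtain ⟨N, hN⟩ := x.fin; exact ⟨N, fun i hi => hN i hi.le⟩)

theorem top_spec (x : T) {i : ℕ} (h : top x < i) : x.lab i = 0 := by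
  classical
  exact Nat.find_spec (p := fun k => ∀ i, k < i → x.lab i = 0) _ i h

theorem top_le {x : T} {k : ℕ} (h : ∀ i, k < i → x.lab i = 0) : top x ≤ k := by
  classical
  exact Nat.find_min' _ h

/-- The top nonzero label, or zero. -/
noncomputable def c (x : T) : ℝ := x.lab (top x)

theorem c_eq_zero {x : T} (h : c x = 0) : x ∈ Line := by
  intro i
  rcases lt_trichotomy (top x) i with h1 | h1 | h1
  · exact top_spec x h1
  · rw [← h1]; exact h
  · exfalso
    obtain ⟨k, hk⟩ : ∃ k, top x = k + 1 := ⟨top x - 1, by omega⟩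
    have : top x ≤ k := by
      apply top_le
      intro j hj
      rcases (Nat.succ_le_of_lt hj).eq_or_lt with h2 | h2
      · rw [← h2, Nat.succ_eq_add_one, ← hk]; exact h
      · exact top_spec x (by omega)
    omega

theorem top_eq {x : T} {k : ℕ} (h : ∀ i, k < i → x.lab i = 0) (h' : x.lab k ≠ 0) :
    top x = k := by
  apply le_antisymm (top_le h)
  by_contra hcon
  push Not at hcon
  exact h' (top_spec x hcon)

theorem par_line {x : T} (h : c x ≠ 0) (h' : top x = 0) : par x ∈ Line := by
  intro i
  rw [par_lab]
  exact top_spec x (by omega)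

theorem top_par {x : T} (h : c x ≠ 0) (h' : top x ≠ 0) : top x = top (par x) + 1 ∧ c (par x) = c x := by
  have : top (par x) = top x - 1 := by
    apply top_eq
    · intro i hi
      rw [par_lab]; exact top_spec x (by omega)
    · rw [par_lab, Nat.sub_add_cancel (by omega)]; exact h
  refine ⟨by omega, ?_⟩
  unfold c
  rw [this, par_lab, Nat.sub_add_cancel (by omega)]

theorem c_of_par {x : T} (h : c (par x) ≠ 0) : c x = c (par x) ∧ top x = top (par x) + 1 := by
  have h1 : top x = top (par x) + 1 := by
    apply top_eq
    · intro i hi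
      obtain ⟨j, rfl⟩ : ∃ j, i = j + 1 := ⟨i - 1, by omega⟩
      rw [← par_lab]; exact top_spec _ (by omega)
    · exact h
  exact ⟨by unfold c; rw [h1]; rfl, h1⟩

open Classical in
/-- Replace the top label. -/
noncomputable def retop (x : T) (l : ℝ) : T :=
  ⟨x.lev, Function.update x.lab (top x) l, by
    refine ⟨top x + 1, fun k hk => ?_⟩
    rw [Function.update_of_ne (by omega)]
    exact top_spec x (by omega)⟩

theorem retop_lev (x : T) (l : ℝ) : (retop x l).lev = x.lev := rfl

theorem retop_lab_top (x : T) (l : ℝ) : (retop x l).lab (top x) = l := by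
  unfold retop; simp

theorem retop_lab {x : T} {l : ℝ} {i : ℕ} (h : i ≠ top x) : (retop x l).lab i = x.lab i := by
  unfold retop; simp [h]

theorem top_retop {x : T} {l : ℝ} (h : l ≠ 0) : top (retop x l) = top x := by
  apply top_eq
  · intro i hi
    rw [retop_lab (by omega)]; exact top_spec x hi
  · rw [retop_lab_top]; exact h

theorem c_retop {x : T} {l : ℝ} (h : l ≠ 0) : c (retop x l) = l := by
  unfold c
  rw [top_retop h, retop_lab_top]

theorem retop_retop {x : T} {l l' : ℝ} (h : l ≠ 0) : retop (retop x l) l' = retop x l' := by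
  ext i
  · rfl
  · by_cases hi : i = top x
    · subst hi
      rw [retop_lab_top]
      have := retop_lab_top (retop x l) l'
      rwa [top_retop h] at this
    · rw [retop_lab (by rw [top_retop h]; exact hi), retop_lab hi, retop_lab hi]

theorem retop_c (x : T) : retop x (c x) = x := by
  ext i
  · rfl
  · by_cases hi : i = top x
    · subst hi; exact retop_lab_top _ _
    · exact retop_lab hi

theorem par_retop {x : T} {l : ℝ} (h : c x ≠ 0) (h' : top x ≠ 0) :
    par (retop x l) = retop (par x) l := by
  have h1 := (top_par h h').1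
  ext i
  · rfl
  · rw [par_lab]
    by_cases hi : i = top (par x)
    · subst hi
      rw [retop_lab_top, ← h1, retop_lab_top]
    · rw [retop_lab hi, retop_lab (by omega), par_lab]

theorem par_retop' {x : T} {l : ℝ} (h' : top x = 0) : par (retop x l) = par x := by
  ext i
  · rfl
  · rw [par_lab, retop_lab (by omega), par_lab]

/-- The elements supported on the branches with label in `M`. -/
def A (M : Set ℝ) : Subgroup G where
  carrier := {g | ∀ x, c x ∉ M → g.1 x = x}
  mul_mem' := by
    intro g h hg hh x hx
    rw [mul_app, hh x hx, hg x hx]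
  one_mem' := fun _ _ => rfl
  inv_mem' := by
    intro g hg x hx
    exact fix_inv (hg x hx)

theorem A.c_mem {M : Set ℝ} {g : G} (hg : g ∈ A M) {x : T} (hx : c x ∈ M) : c (g.1 x) ∈ M := by
  by_contra hcon
  have h1 := (A M).inv_mem hg (g.1 x) hcon
  rw [inv_app_self] at h1
  rw [← h1] at hcon
  exact hcon hx

theorem A.line {M : Set ℝ} (hM : (0 : ℝ) ∉ M) {g : G} (hg : g ∈ A M) {x : T} (hx : x ∈ Line) :
    g.1 x = x := by
  apply hg
  unfold c
  rw [hx]
  exact hM

theorem top_app {g : G} (hg : ∀ x ∈ Line, g.1 x = x) (x : T) : top (g.1 x) = top x := by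
  have key : ∀ (g : G) (_ : ∀ x ∈ Line, g.1 x = x) (x : T), top (g.1 x) ≤ top x := by
    intro g hg x
    apply top_le
    intro i hi
    have h1 : par^[i] x ∈ Line := by
      intro j
      rw [iter_lab]; exact top_spec x (by omega)
    have h2 := hg _ h1
    rw [← iter_comm] at h2
    have h3 := h1 0
    rw [← h2, iter_lab, zero_add] at h3
    exact h3
  apply le_antisymm (key g hg x)
  have h1 := key g⁻¹ (fun x hx => fix_inv (hg x hx)) (g.1 x)
  rwa [inv_app_self] at h1

end G

end Pool.Agent.Q104.QP
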