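import Pool.Agent.Q104.QP.Bounded

set_option autoImplicit false

/-!
# The wreath product inside the stabiliser of the main line
-/

namespace Pool.Agent.Q104.QP

open T Equiv

namespace G

/-- Countably many disjoint copies of the set `M` of labels. -/
structure Emb (M : Set ℝ) where
  /-- the copies -/
  φ : M → ℤ × ℕ → ℝ
  ne : ∀ m w, φ m w ≠ 0
  inj : ∀ m w m' w', φ m w = φ m' w' → m = m' ∧ w = w'
  base : ∀ m, φ m (0, 0) = m

theorem exists_emb {M : Set ℝ} (hM : M.Countable) (h0 : (0 : ℝ) ∉ M) : Nonempty (Emb M) := by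
  classical
  have hS : ((insert 0 M)ᶜ : Set ℝ).Infinite := by
    intro hfin
    apply Cardinal.not_countable_real
    rw [← Set.union_compl_self (insert (0 : ℝ) M)]
    exact (hM.insert 0).union hfin.countable
  let ψ := hS.natEmbedding
  have := hM.to_subtype
  obtain ⟨e, he⟩ := exists_injective_nat (M × (ℤ × ℕ))
  refine ⟨⟨fun m w => if w = (0, 0) then m.1 else (ψ (e (m, w))).1, ?_, ?_, ?_⟩⟩
  · intro m w h
    split_ifs at h with hw
    · exact h0 (h ▸ m.2)
    · exact (ψ (e (m, w))).2 (by rw [h]; exact Set.mem_insert _ _)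
  · intro m w m' w' h
    split_ifs at h with hw hw' hw'
    · exact ⟨Subtype.ext h, by rw [hw, hw']⟩
    · exact absurd (Set.mem_insert_of_mem (0 : ℝ) (h ▸ m.2 : (ψ (e (m', w'))).1 ∈ M)) (ψ _).2
    · exact absurd (Set.mem_insert_of_mem (0 : ℝ) (h ▸ m'.2 : (ψ (e (m, w))).1 ∈ M)) (ψ _).2
    · have := he (ψ.injective (Subtype.ext h))
      exact ⟨congrArg Prod.fst this, congrArg Prod.snd this⟩
  · intro m
    rw [if_pos rfl]

/-- The vertices of the branches with label in `M`. -/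
abbrev CM (M : Set ℝ) := {x : T // c x ∈ M}

variable {M : Set ℝ} (e : Emb M)

/-- The copies of the branches. -/
noncomputable def jf (p : CM M × (ℤ × ℕ)) : T := retop p.1.1 (e.φ ⟨c p.1.1, p.1.2⟩ p.2)

theorem c_jf (p : CM M × (ℤ × ℕ)) : c (jf e p) = e.φ ⟨c p.1.1, p.1.2⟩ p.2 :=
  c_retop (e.ne _ _)

theorem top_jf (p : CM M × (ℤ × ℕ)) : top (jf e p) = top p.1.1 := top_retop (e.ne _ _)

theorem jf_inj : Function.Injective (jf e) := by
  rintro ⟨x, w⟩ ⟨y, w'⟩ h
  have h1 := congrArg c h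
  rw [c_jf, c_jf] at h1
  obtain ⟨h2, rfl⟩ := e.inj _ _ _ _ h1
  have h3 : c x.1 = c y.1 := congrArg Subtype.val h2
  have h4 : x.1 = y.1 := by
    have e1 : retop (jf e (x, w)) (c x.1) = x.1 := by
      unfold jf; rw [retop_retop (e.ne _ _), retop_c]
    have e2 : retop (jf e (y, w)) (c y.1) = y.1 := by
      unfold jf; rw [retop_retop (e.ne _ _), retop_c]
    rw [← e1, ← e2, h, h3]
  rw [Subtype.ext h4]

/-- The copies of the branches, as an embedding. -/
noncomputable def j : CM M × (ℤ × ℕ) ↪ T := ⟨jf e, jf_inj e⟩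

theorem j_app (p : CM M × (ℤ × ℕ)) : j e p = jf e p := rfl

theorem mem_range_iff (h0 : (0 : ℝ) ∉ M) (z : T) :
    z ∈ Set.range (j e) ↔ ∃ m w, c z = e.φ m w := by
  constructor
  · rintro ⟨p, rfl⟩
    exact ⟨_, _, c_jf e p⟩
  · rintro ⟨m, w, h⟩
    have hm : m.1 ≠ 0 := fun h' => h0 (h' ▸ m.2)
    have h1 : c (retop z m.1) = m.1 := c_retop hm
    refine ⟨(⟨retop z m.1, by rw [h1]; exact m.2⟩, w), ?_⟩
    show retop (retop z m.1) _ = z
    rw [retop_retop hm]
    have : (⟨c (retop z m.1), by rw [h1]; exact m.2⟩ : M) = m := Subtype.ext h1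
    rw [this, ← h, retop_c]

/-- Conditions for a permutation of the copies to be an automorphism. -/
structure Good (γ : Perm (CM M × (ℤ × ℕ))) : Prop where
  top : ∀ p, top (γ p).1.1 = top p.1.1
  par1 : ∀ (x y : CM M) (w : ℤ × ℕ), y.1 = par x.1 →
    (γ (y, w)).1.1 = par (γ (x, w)).1.1 ∧ (γ (y, w)).2 = (γ (x, w)).2
  par0 : ∀ (x : CM M) (w : ℤ × ℕ), G.top x.1 = 0 → par (γ (x, w)).1.1 = par x.1

theorem c_ne (h0 : (0 : ℝ) ∉ M) (x : CM M) : c x.1 ≠ 0 := fun h => h0 (h ▸ x.2)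

theorem Good.par {γ : Perm (CM M × (ℤ × ℕ))} (h0 : (0 : ℝ) ∉ M) (h : Good γ) (z : T) :
    par (γ.viaEmbedding (j e) z) = γ.viaEmbedding (j e) (par z) := by
  by_cases hz : z ∈ Set.range (j e)
  · obtain ⟨⟨x, w⟩, rfl⟩ := hz
    rw [Perm.viaEmbedding_apply]
    by_cases ht : G.top x.1 = 0
    · have ht' : G.top (γ (x, w)).1.1 = 0 := by rw [h.top]; exact ht
      have e1 : T.par (j e (γ (x, w))) = T.par x.1 := by
        rw [j_app, jf, par_retop' ht', h.par0 x w ht]
      have e2 : T.par (j e (x, w)) = T.par x.1 := by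
        rw [j_app, jf, par_retop' ht]
      rw [e1, e2, Perm.viaEmbedding_apply_of_notMem]
      rw [mem_range_iff e h0]
      rintro ⟨m, w', h'⟩
      have h3 : c (T.par x.1) = 0 := par_line (c_ne h0 x) ht _
      rw [h3] at h'
      exact e.ne _ _ h'.symm
    · have ht' : G.top (γ (x, w)).1.1 ≠ 0 := by rw [h.top]; exact ht
      obtain ⟨h1, h2⟩ := top_par (c_ne h0 x) ht
      obtain ⟨h3, h4⟩ := top_par (c_ne h0 (γ (x, w)).1) ht'
      have hy : c (T.par x.1) ∈ M := by rw [h2]; exact x.2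
      have e1 : T.par (j e (x, w)) = j e (⟨T.par x.1, hy⟩, w) := by
        rw [j_app, jf, par_retop (c_ne h0 x) ht]
        show _ = retop _ _
        congr 2
        exact Subtype.ext h2.symm
      rw [e1, Perm.viaEmbedding_apply]
      obtain ⟨h5, h6⟩ := h.par1 x ⟨T.par x.1, hy⟩ w rfl
      rw [j_app, jf, par_retop (c_ne h0 _) ht', j_app, jf]
      have h7 : (⟨c (γ (⟨T.par x.1, hy⟩, w)).1.1, (γ (⟨T.par x.1, hy⟩, w)).1.2⟩ : M) =
          ⟨c (γ (x, w)).1.1, (γ (x, w)).1.2⟩ := by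
        apply Subtype.ext
        show c (γ (⟨T.par x.1, hy⟩, w)).1.1 = c (γ (x, w)).1.1
        rw [h5, h4]
      rw [h7, h6, h5]
  · have hz' : T.par z ∉ Set.range (j e) := by
      rw [mem_range_iff e h0] at hz ⊢
      rintro ⟨m, w, h'⟩
      apply hz
      have h1 : c (T.par z) ≠ 0 := by rw [h']; exact e.ne _ _
      exact ⟨m, w, by rw [(c_of_par h1).1, h']⟩
    rw [Perm.viaEmbedding_apply_of_notMem _ _ _ hz, Perm.viaEmbedding_apply_of_notMem _ _ _ hz']

theorem Good.supp {γ : Perm (CM M × (ℤ × ℕ))} (h : Good γ) {N : Set ℝ} (hN0 : (0 : ℝ) ∈ N)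
    (hNφ : ∀ m w, e.φ m w ∈ N)
    (hN : ∀ p k, p.1.1.lab k ∉ N → ∀ i ≤ k, (γ p).1.1.lab i = p.1.1.lab i) :
    Supp N (γ.viaEmbedding (j e)) := by
  intro z k hk i hi
  by_cases hz : z ∈ Set.range (j e)
  · obtain ⟨p, rfl⟩ := hz
    rw [Perm.viaEmbedding_apply]
    have h1 : k < G.top p.1.1 := by
      by_contra hcon
      apply hk
      rcases (not_lt.1 hcon).eq_or_lt with h2 | h2
      · subst h2
        rw [j_app, jf, retop_lab_top]
        exact hNφ _ _
      · rw [top_spec (j e p) (by rw [j_app, top_jf]; exact h2)]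
        exact hN0
    have h2 : k < G.top (γ p).1.1 := by rw [h.top]; exact h1
    rw [j_app, j_app, jf, jf, retop_lab (by omega), retop_lab (by omega)]
    apply hN p k ?_ i hi
    rw [j_app, jf, retop_lab (by omega)] at hk
    exact hk
  · rw [Perm.viaEmbedding_apply_of_notMem _ _ _ hz]

/-- The action on the branches. -/
def act (g : A M) (x : CM M) : CM M := ⟨g.1.1 x.1, A.c_mem g.2 x.2⟩

/-- The base group of the wreath product. -/
def Φ0 : (ℤ × ℕ → A M) →* Perm (CM M × (ℤ × ℕ)) where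
  toFun β :=
    { toFun := fun p => (act (β p.2) p.1, p.2)
      invFun := fun p => (act (β p.2)⁻¹ p.1, p.2)
      left_inv := fun p => by
        ext
        · exact congrArg T.lev (inv_app_self (β p.2).1 p.1.1)
        · exact congrFun (congrArg T.lab (inv_app_self (β p.2).1 p.1.1)) _
        · rfl
        · rfl
      right_inv := fun p => by
        ext
        · exact congrArg T.lev (app_inv_self (β p.2).1 p.1.1)
        · exact congrFun (congrArg T.lab (app_inv_self (β p.2).1 p.1.1)) _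
        · rfl
        · rfl }
  map_one' := rfl
  map_mul' β β' := rfl

/-- The top group of the wreath product. -/
def Ψ0 : Perm (ℤ × ℕ) →* Perm (CM M × (ℤ × ℕ)) where
  toFun ρ := Equiv.prodCongr (Equiv.refl _) ρ
  map_one' := rfl
  map_mul' _ _ := rfl

theorem rel0 (ρ : Perm (ℤ × ℕ)) (β : ℤ × ℕ → A M) :
    Ψ0 ρ * Φ0 β * (Ψ0 ρ)⁻¹ = Φ0 (β ∘ ρ.symm) := by
  ext1 p
  show (act (β (ρ.symm p.2)) p.1, ρ (ρ.symm p.2)) = (act (β (ρ.symm p.2)) p.1, p.2)
  rw [ρ.apply_symm_apply]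

theorem good_Φ0 (h0 : (0 : ℝ) ∉ M) (β : ℤ × ℕ → A M) : Good (Φ0 β) where
  top p := top_app (fun x hx => A.line h0 (β p.2).2 hx) _
  par1 x y w h := by
    refine ⟨?_, rfl⟩
    show (β w).1.1 y.1 = par ((β w).1.1 x.1)
    rw [h, par_comm]
  par0 x w h := by
    show par ((β w).1.1 x.1) = _
    rw [par_comm, A.line h0 (β w).2 (par_line (c_ne h0 x) h)]

theorem good_Ψ0 (ρ : Perm (ℤ × ℕ)) : Good (M := M) (Ψ0 ρ) where
  top _ := rfl
  par1 _ _ _ h := ⟨h, rfl⟩
  par0 _ _ _ := rfl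

theorem Φ_mem (hM : M.Countable) (h0 : (0 : ℝ) ∉ M) (β : ℤ × ℕ → A M) :
    Perm.viaEmbeddingHom (j e) (Φ0 β) ∈ G := by
  have := hM.to_subtype
  choose N hN hN1 hN2 using fun w => (β w).1.2.2
  set N' : Set ℝ := insert 0 (Set.range (fun p : M × (ℤ × ℕ) => e.φ p.1 p.2) ∪ ⋃ w, N w) with hN'
  have hc : N'.Countable :=
    ((Set.countable_range _).union (Set.countable_iUnion hN)).insert 0
  have hsub : ∀ w, N w ⊆ N' := fun w x hx =>
    Set.mem_insert_of_mem _ (Or.inr (Set.mem_iUnion.2 ⟨w, hx⟩))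
  have hφ : ∀ m w, e.φ m w ∈ N' := fun m w => Set.mem_insert_of_mem _ (Or.inl ⟨(m, w), rfl⟩)
  refine ⟨fun z => (good_Φ0 h0 β).par e h0 z, N', hc, ?_, ?_⟩
  · apply (good_Φ0 h0 β).supp e (Set.mem_insert _ _) hφ
    intro p k hk i hi
    exact (hN1 p.2).mono (hsub p.2) p.1.1 k hk i hi
  · have : (Perm.viaEmbeddingHom (j e) (Φ0 β)).symm = (Φ0 β⁻¹).viaEmbedding (j e) := by
      rw [← Perm.viaEmbeddingHom_apply, map_inv Φ0, map_inv]
      rfl
    rw [this]
    apply (good_Φ0 h0 β⁻¹).supp e (Set.mem_insert _ _) hφ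
    intro p k hk i hi
    exact (hN2 p.2).mono (hsub p.2) p.1.1 k hk i hi

theorem Ψ_mem (hM : M.Countable) (h0 : (0 : ℝ) ∉ M) (ρ : Perm (ℤ × ℕ)) :
    Perm.viaEmbeddingHom (j e) (Ψ0 ρ) ∈ G := by
  have := hM.to_subtype
  set N' : Set ℝ := insert 0 (Set.range (fun p : M × (ℤ × ℕ) => e.φ p.1 p.2)) with hN'
  have hc : N'.Countable := (Set.countable_range _).insert 0
  have hφ : ∀ m w, e.φ m w ∈ N' := fun m w => Set.mem_insert_of_mem _ ⟨(m, w), rfl⟩
  refine ⟨fun z => (good_Ψ0 ρ).par e h0 z, N', hc, ?_, ?_⟩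
  · apply (good_Ψ0 ρ).supp e (Set.mem_insert _ _) hφ
    intro p k hk i hi
    rfl
  · have : (Perm.viaEmbeddingHom (j e) (Ψ0 ρ)).symm = (Ψ0 ρ⁻¹).viaEmbedding (j e) := by
      rw [← Perm.viaEmbeddingHom_apply, map_inv Ψ0, map_inv]
      rfl
    rw [this]
    apply (good_Ψ0 ρ⁻¹).supp e (Set.mem_insert _ _) hφ
    intro p k hk i hi
    rfl

/-- Length functions are bounded on the elements supported on the branches with label in `M`. -/
theorem bounded_A (l : G → ℕ) (hmul : ∀ g h, l (g * h) ≤ l g + l h)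
    (hinv : ∀ g, l g⁻¹ = l g) (hM : M.Countable) (h0 : (0 : ℝ) ∉ M) :
    ∃ C, ∀ g ∈ A M, l g ≤ C := by
  obtain ⟨e⟩ := exists_emb hM h0
  let Φ : (ℤ × ℕ → A M) →* G :=
    ((Perm.viaEmbeddingHom (j e)).comp Φ0).codRestrict G (fun β => Φ_mem e hM h0 β)
  let Ψ : Perm (ℤ × ℕ) →* G :=
    ((Perm.viaEmbeddingHom (j e)).comp Ψ0).codRestrict G (fun β => Ψ_mem e hM h0 β)
  obtain ⟨C, hC⟩ := bounded_of_wreath l hmul hinv Φ Ψ (by
    intro ρ β
    apply Subtype.ext
    show Perm.viaEmbeddingHom (j e) (Ψ0 ρ) * Perm.viaEmbeddingHom (j e) (Φ0 β) *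
      (Perm.viaEmbeddingHom (j e) (Ψ0 ρ))⁻¹ = Perm.viaEmbeddingHom (j e) (Φ0 (β ∘ ρ.symm))
    rw [← map_inv, ← map_mul, ← map_mul, rel0])
  refine ⟨C, fun g hg => ?_⟩
  convert hC ⟨g, hg⟩
  apply Subtype.ext
  ext1 z
  show g.1 z = (Φ0 (Pi.mulSingle (0, 0) (⟨g, hg⟩ : A M))).viaEmbedding (j e) z
  by_cases hz : z ∈ Set.range (j e)
  · obtain ⟨⟨x, w⟩, rfl⟩ := hz
    rw [Perm.viaEmbedding_apply]
    by_cases hw : w = (0, 0)
    · subst hw
      have e1 : ∀ y : CM M, j e (y, (0, 0)) = y.1 := by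
        intro y
        rw [j_app, jf, e.base]
        exact retop_c _
      have e2 : Φ0 (Pi.mulSingle (0, 0) (⟨g, hg⟩ : A M)) (x, (0, 0)) =
          (act ⟨g, hg⟩ x, (0, 0)) := by
        show (act (Pi.mulSingle (M := fun _ : ℤ × ℕ => A M) (0, 0) (⟨g, hg⟩ : A M) (0, 0)) x,
          (0, 0)) = _
        rw [Pi.mulSingle_eq_same]
      rw [e2, e1, e1]
      rfl
    · have e2 : Φ0 (Pi.mulSingle (0, 0) (⟨g, hg⟩ : A M)) (x, w) = (x, w) := by
        show (act (Pi.mulSingle (M := fun _ : ℤ × ℕ => A M) (0, 0) (⟨g, hg⟩ : A M) w) x,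
          w) = _
        rw [Pi.mulSingle_eq_of_ne hw]
        rfl
      rw [e2]
      apply hg
      rw [j_app, c_jf]
      intro hm
      have := e.inj _ _ _ _ (e.base ⟨_, hm⟩)
      exact hw this.2.symm
  · rw [Perm.viaEmbedding_apply_of_notMem _ _ _ hz]
    apply hg
    intro hm
    apply hz
    rw [mem_range_iff e h0]
    exact ⟨⟨c z, hm⟩, (0, 0), (e.base ⟨c z, hm⟩).symm⟩

/-- The elements fixing the main line have bounded length. -/
theorem bounded_L (l : G → ℕ) (hmul : ∀ g h, l (g * h) ≤ l g + l h)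
    (hinv : ∀ g, l g⁻¹ = l g) : ∃ C, ∀ g : G, (∀ i, g.1 (v i) = v i) → l g ≤ C := by
  by_contra hcon
  push Not at hcon
  choose g hg hg' using hcon
  choose N hN hN1 hN2 using fun n => (g n).2.2
  set M : Set ℝ := (⋃ n, N n) \ {0} with hM
  have hMc : M.Countable := (Set.countable_iUnion hN).mono Set.diff_subset
  have h0 : (0 : ℝ) ∉ M := by simp [hM]
  obtain ⟨C, hC⟩ := bounded_A l hmul hinv hMc h0
  refine (hg' C).not_ge (hC _ ?_)
  intro x hx
  have hlev : ∀ y, ((g C).1 y).lev = y.lev := by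
    intro y
    rw [lev_app]
    have : sh (g C) = 0 := by
      unfold sh
      rw [hg]
      rfl
    rw [this, add_zero]
  by_cases hcx : c x = 0
  · rw [eq_v (c_eq_zero hcx), hg]
  · have hx' : x.lab (top x) ∉ N C := by
      intro h
      apply hx
      exact ⟨Set.mem_iUnion.2 ⟨C, h⟩, hcx⟩
    ext i
    · exact hlev x
    · by_cases hi : i ≤ top x
      · exact hN1 C x (top x) hx' i hi
      · push Not at hi
        have h1 : par^[i] x = v (par^[i] x).lev := by
          apply eq_v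
          intro k
          rw [iter_lab]
          exact top_spec x (by omega)
        have h2 : par^[i] ((g C).1 x) = v (par^[i] x).lev := by
          rw [iter_comm, h1, hg]
          rfl
        have h3 : ((g C).1 x).lab i = 0 := by
          have := congrFun (congrArg T.lab h2) 0
          rwa [iter_lab, zero_add] at this
        rw [h3, top_spec x hi]

/-- The stabiliser of a vertex of the main line is strongly bounded. -/
theorem bounded_stab (l : G → ℕ) (hmul : ∀ g h, l (g * h) ≤ l g + l h)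
    (hinv : ∀ g, l g⁻¹ = l g) : ∃ C, ∀ g : G, g.1 (v 0) = v 0 → l g ≤ C := by
  obtain ⟨C, hC⟩ := bounded_L l hmul hinv
  have hL : ∀ k : G, (∀ y ∈ Dsc (v (-1)), k.1 y = y) → ∀ i, k.1 (v i) = v i := by
    intro k hk i
    rcases le_or_gt i (-1) with hi | hi
    · apply hk
      refine ⟨(-1 - i).toNat, ?_⟩
      rw [iter_v]
      congr 1
      omega
    · have h1 : par^[(i + 1).toNat] (v (-1)) = v i := by
        rw [iter_v]; congr 1; omega
      rw [← h1, ← iter_comm, hk _ (self_mem _)]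
  set x := child (v 0) 5 with hx
  have hxp : par x = v 0 := par_child _ _
  have hwp : par (v (-1)) = v 0 := rfl
  have hne : v (-1) ≠ x := by
    intro h
    have := congrFun (congrArg T.lab h) 0
    rw [hx, child_lab] at this
    simp at this
  set e := E (v 0) ((v (-1)).lab 0) (x.lab 0) with he
  have hex : e.1 (v (-1)) = x := E_child _ _ _ hwp hxp
  refine ⟨3 * C + 2 * l e, fun q hq => ?_⟩
  obtain ⟨k₁, k₂, k₃, rfl, h1, h2, h3⟩ := three (v 0) (v (-1)) x hwp hxp hne q hq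
  have h4 : l (e⁻¹ * k₂ * e) ≤ C := by
    apply hC
    apply hL
    intro y hy
    rw [mul_app, mul_app, h2, inv_app_self]
    rw [← hex]
    exact app_mem e hy
  have h5 : l k₂ ≤ C + 2 * l e := by
    have e1 : k₂ = e * (e⁻¹ * k₂ * e) * e⁻¹ := by group
    rw [e1]
    have a1 := hmul (e * (e⁻¹ * k₂ * e)) e⁻¹
    have a2 := hmul e (e⁻¹ * k₂ * e)
    rw [hinv] at a1
    omega
  have a1 := hmul (k₁ * k₂) k₃
  have a2 := hmul k₁ k₂
  have a3 := hC k₁ (hL k₁ h1)
  have a4 := hC k₃ (hL k₃ h3)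
  omega

end G

end Pool.Agent.Q104.QP
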