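import Pool.Agent.Q104.QP.Tree

set_option autoImplicit false

/-!
# Automorphisms with countable support
-/

namespace Pool.Agent.Q104.QP

open T Equiv

/-- Labels outside of `N` are not touched, nor is anything below them. -/
def Supp (N : Set ℝ) (g : T → T) : Prop :=
  ∀ x k, x.lab k ∉ N → ∀ i ≤ k, (g x).lab i = x.lab i

theorem Supp.mono {N N' : Set ℝ} {g : T → T} (h : Supp N g) (hN : N ⊆ N') : Supp N' g :=
  fun x k hk => h x k (fun h' => hk (hN h'))

theorem Supp.comp {N : Set ℝ} {g h : T → T} (hg : Supp N g) (hh : Supp N h) :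
    Supp N (g ∘ h) := by
  intro x k hk i hi
  have h1 := hh x k hk
  rw [Function.comp_apply, hg (h x) k (by rw [h1 k le_rfl]; exact hk) i hi, h1 i hi]

theorem Supp.id (N : Set ℝ) : Supp N (fun x => x) := fun _ _ _ _ _ => rfl

/-- The group of automorphisms with countable support. -/
def G : Subgroup (Perm T) where
  carrier := {g | (∀ x, par (g x) = g (par x)) ∧
    ∃ N : Set ℝ, N.Countable ∧ Supp N g ∧ Supp N g.symm}
  mul_mem' := by
    rintro g h ⟨hg, N, hN, hg1, hg2⟩ ⟨hh, N', hN', hh1, hh2⟩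
    refine ⟨fun x => ?_, N ∪ N', hN.union hN', ?_, ?_⟩
    · rw [Perm.mul_apply, hg, hh]; rfl
    · exact (hg1.mono Set.subset_union_left).comp (hh1.mono Set.subset_union_right)
    · exact (hh2.mono Set.subset_union_right).comp (hg2.mono Set.subset_union_left)
  one_mem' := ⟨fun _ => rfl, ∅, Set.countable_empty, Supp.id _, Supp.id _⟩
  inv_mem' := by
    rintro g ⟨hg, N, hN, hg1, hg2⟩
    refine ⟨fun x => ?_, N, hN, hg2, hg1⟩
    apply g.injective
    rw [← hg]
    show par (g (g.symm x)) = g (g.symm (par x))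
    rw [g.apply_symm_apply, g.apply_symm_apply]

namespace G

theorem par_comm (g : G) (x : T) : par (g.1 x) = g.1 (par x) := g.2.1 x

theorem iter_comm (g : G) (n : ℕ) (x : T) : par^[n] (g.1 x) = g.1 (par^[n] x) := by
  induction n generalizing x with
  | zero => rfl
  | succ n ih => rw [Function.iterate_succ_apply, par_comm, ih]; rfl

theorem mul_app (g h : G) (x : T) : (g * h).1 x = g.1 (h.1 x) := rfl
theorem one_app (x : T) : (1 : G).1 x = x := rfl
theorem inv_app_self (g : G) (x : T) : g⁻¹.1 (g.1 x) = x := g.1.symm_apply_apply x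
theorem app_inv_self (g : G) (x : T) : g.1 (g⁻¹.1 x) = x := g.1.apply_symm_apply x

/-- The level shift. -/
def sh (g : G) : ℤ := (g.1 (v 0)).lev

theorem lev_app (g : G) (x : T) : (g.1 x).lev = x.lev + sh g := by
  obtain ⟨a, b, c, h1, -⟩ := exists_R x (v 0)
  have h2 := lev_of h1
  have h3 : par^[b] (g.1 x) = par^[c] (g.1 (v 0)) := by rw [iter_comm, iter_comm, h1]
  have h4 := lev_of h3
  unfold sh
  simp only [v_lev] at *
  omega

theorem sh_mul (g h : G) : sh (g * h) = sh g + sh h := by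
  show (g.1 (h.1 (v 0))).lev = _
  rw [lev_app]
  show sh h + sh g = _
  ring

theorem sh_one : sh (1 : G) = 0 := rfl

theorem sh_inv (g : G) : sh g⁻¹ = - sh g := by
  have := sh_mul g g⁻¹
  rw [mul_inv_cancel, sh_one] at this
  omega

theorem sh_pow (g : G) (n : ℕ) : sh (g ^ n) = n * sh g := by
  induction n with
  | zero => simp [sh_one]
  | succ n ih => rw [pow_succ, sh_mul, ih]; push_cast; ring

theorem R_app (g : G) {l : ℤ} {x y : T} (h : R l x y) : R (l + sh g) (g.1 x) (g.1 y) := by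
  obtain ⟨a, b, h1, h2⟩ := h
  refine ⟨a, b, ?_, ?_⟩
  · rw [iter_comm, iter_comm, h1]
  · rw [lev_app]; omega

theorem mu_app (g : G) (x y : T) : mu (g.1 x) (g.1 y) = mu x y + sh g := by
  apply le_antisymm
  · exact (R_iff _ _ _).1 (R_app g ((R_iff _ _ _).2 le_rfl))
  · have h1 : R (mu (g.1 x) (g.1 y) + sh g⁻¹) (g⁻¹.1 (g.1 x)) (g⁻¹.1 (g.1 y)) :=
      R_app g⁻¹ ((R_iff _ _ _).2 le_rfl)
    rw [inv_app_self, inv_app_self, R_iff, sh_inv] at h1
    omega

theorem d_app (g : G) (x y : T) : d (g.1 x) (g.1 y) = d x y := by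
  unfold d
  rw [mu_app, lev_app, lev_app]
  ring

/-- The translation along the main line. -/
def trans : Perm T where
  toFun x := ⟨x.lev + 1, x.lab, x.fin⟩
  invFun x := ⟨x.lev - 1, x.lab, x.fin⟩
  left_inv x := by ext k <;> simp
  right_inv x := by ext k <;> simp

/-- The translation as an element of the group. -/
def t : G := ⟨trans, fun _ => rfl, ∅, Set.countable_empty, fun _ _ _ _ _ => rfl,
  fun _ _ _ _ _ => rfl⟩

theorem t_app (x : T) : t.1 x = ⟨x.lev + 1, x.lab, x.fin⟩ := rfl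

theorem t_v (j : ℤ) : t.1 (v j) = v (j + 1) := rfl

theorem t_inv_v (j : ℤ) : t⁻¹.1 (v j) = v (j - 1) := rfl

theorem sh_t : sh t = 1 := rfl

theorem t_pow_v (n : ℕ) (j : ℤ) : (t ^ n).1 (v j) = v (j + n) := by
  induction n generalizing j with
  | zero => simp [one_app]
  | succ n ih => rw [pow_succ, mul_app, t_v, ih]; push_cast; congr 1; ring

theorem t_pow_inv_v (n : ℕ) (j : ℤ) : (t ^ n)⁻¹.1 (v j) = v (j - n) := by
  have := t_pow_v n (j - n)
  rw [sub_add_cancel] at this
  rw [← this, inv_app_self]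

/-! ### Descendants and swaps -/

/-- The descendants. -/
def Dsc (w : T) : Set T := {x | ∃ k, par^[k] x = w}

theorem self_mem (w : T) : w ∈ Dsc w := ⟨0, rfl⟩

theorem mem_of_par {w x : T} (h : par x ∈ Dsc w) : x ∈ Dsc w := by
  obtain ⟨k, hk⟩ := h
  exact ⟨k + 1, by rw [Function.iterate_succ_apply]; exact hk⟩

theorem eq_or_par_mem {w x : T} (h : x ∈ Dsc w) : x = w ∨ par x ∈ Dsc w := by
  obtain ⟨k, hk⟩ := h
  rcases k with _ | k
  · left; exact hk
  · right; exact ⟨k, by rw [Function.iterate_succ_apply] at hk; exact hk⟩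

theorem lev_le_of_mem {w x : T} (h : x ∈ Dsc w) : x.lev ≤ w.lev := by
  obtain ⟨k, hk⟩ := h
  rw [← hk, iter_lev]; omega

theorem eq_of_mem {w w' x : T} (h : x ∈ Dsc w) (h' : x ∈ Dsc w') (hl : w.lev = w'.lev) :
    w = w' := by
  obtain ⟨k, hk⟩ := h
  obtain ⟨k', hk'⟩ := h'
  have : k = k' := by
    rw [← hk, ← hk', iter_lev, iter_lev] at hl
    omega
  rw [← hk, ← hk', this]

theorem app_mem (g : G) {w x : T} (h : x ∈ Dsc w) : g.1 x ∈ Dsc (g.1 w) := by
  obtain ⟨k, hk⟩ := h
  exact ⟨k, by rw [iter_comm, hk]⟩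

theorem inv_app_mem (g : G) {w x : T} (h : x ∈ Dsc (g.1 w)) : g⁻¹.1 x ∈ Dsc w := by
  have := app_mem g⁻¹ h
  rwa [inv_app_self] at this

open Classical in
/-- The swap. -/
noncomputable def swf (g : G) (w : T) (x : T) : T :=
  if x ∈ Dsc w then g.1 x else if x ∈ Dsc (g.1 w) then g⁻¹.1 x else x

theorem swf_swf (g : G) (w : T) (hw : sh g = 0) (x : T) :
    swf g⁻¹ (g.1 w) (swf g w x) = x := by
  have hl : w.lev = (g.1 w).lev := by rw [lev_app, hw, add_zero]
  unfold swf
  rw [inv_app_self, inv_inv]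
  by_cases h1 : x ∈ Dsc w
  · rw [if_pos h1, if_pos (app_mem g h1), inv_app_self]
  · rw [if_neg h1]
    by_cases h2 : x ∈ Dsc (g.1 w)
    · rw [if_pos h2, if_neg, if_pos (inv_app_mem g h2), app_inv_self]
      intro h3
      have := eq_of_mem (inv_app_mem g h2) h3 hl
      rw [← this] at h2
      exact h1 h2
    · rw [if_neg h2, if_neg h2, if_neg h1]

theorem swf_swf' (g : G) (w : T) (hw : sh g = 0) (x : T) :
    swf g w (swf g⁻¹ (g.1 w) x) = x := by
  have := swf_swf g⁻¹ (g.1 w) (by rw [sh_inv, hw, neg_zero]) x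
  rwa [inv_inv, inv_app_self] at this

theorem swf_par (g : G) (w : T) (hw : par (g.1 w) = par w) (x : T) :
    par (swf g w x) = swf g w (par x) := by
  have hl : w.lev = (g.1 w).lev := by
    have := congrArg T.lev hw
    simp only [par_lev] at this
    omega
  have n1 : par w ∉ Dsc w := fun h => by
    have := lev_le_of_mem h; simp only [par_lev] at this; omega
  have n2 : par w ∉ Dsc (g.1 w) := fun h => by
    have := lev_le_of_mem h; simp only [par_lev] at this; omega
  unfold swf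
  by_cases h1 : x ∈ Dsc w
  · rw [if_pos h1]
    rcases eq_or_par_mem h1 with rfl | h3
    · rw [if_neg n1, if_neg n2, hw]
    · rw [if_pos h3, par_comm]
  · have h1' : par x ∉ Dsc w := fun h => h1 (mem_of_par h)
    rw [if_neg h1, if_neg h1']
    by_cases h2 : x ∈ Dsc (g.1 w)
    · rw [if_pos h2]
      rcases eq_or_par_mem h2 with h3 | h3
      · rw [h3, inv_app_self, hw, if_neg n2]
      · rw [if_pos h3, par_comm]
    · have h2' : par x ∉ Dsc (g.1 w) := fun h => h2 (mem_of_par h)
      rw [if_neg h2, if_neg h2']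

theorem swf_supp (g : G) (w : T) {N : Set ℝ} (h1 : Supp N g.1) (h2 : Supp N g.1.symm) :
    Supp N (swf g w) := by
  intro x k hk i hi
  unfold swf
  split_ifs
  · exact h1 x k hk i hi
  · exact h2 x k hk i hi
  · rfl

/-- The swap as an element of the group: `g` on the descendants of `w`, the inverse of `g` on the
descendants of `g w`, if this is another vertex, and the identity elsewhere. -/
noncomputable def sw (g : G) (w : T) (hw : par (g.1 w) = par w) : G :=
  have hs : sh g = 0 := by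
    have := congrArg T.lev hw
    simp only [par_lev, lev_app] at this
    omega
  ⟨⟨swf g w, swf g⁻¹ (g.1 w), swf_swf g w hs, swf_swf' g w hs⟩, swf_par g w hw, by
    obtain ⟨N, hN, h1, h2⟩ := g.2.2
    exact ⟨N, hN, swf_supp g w h1 h2, swf_supp g⁻¹ _ h2 h1⟩⟩

theorem sw_app (g : G) (w : T) (hw : par (g.1 w) = par w) (x : T) :
    (sw g w hw).1 x = swf g w x := rfl

theorem sw_of_mem (g : G) (w : T) (hw : par (g.1 w) = par w) {x : T} (h : x ∈ Dsc w) :
    (sw g w hw).1 x = g.1 x := by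
  rw [sw_app]; unfold swf; rw [if_pos h]

theorem sw_of_notMem (g : G) (w : T) (hw : par (g.1 w) = par w) {x : T} (h : x ∉ Dsc w)
    (h' : x ∉ Dsc (g.1 w)) : (sw g w hw).1 x = x := by
  rw [sw_app]; unfold swf; rw [if_neg h, if_neg h']

end G

end Pool.Agent.Q104.QP
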