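import Pool.Agent.Q104.QP.Emb
import Pool.Agent.Q104.QP.Word

set_option autoImplicit false
set_option linter.unusedSectionVars false

/-!
# Length functions which are bounded on the kernel of the level shift
-/

namespace Pool.Agent.Q104.QP

/-- The Gromov product of a length function. -/
noncomputable def gpl {Γ : Type*} [Group Γ] (l : Γ → ℕ) (a b : Γ) : ℝ :=
  ((l a : ℝ) + (l b : ℝ) - (l (a⁻¹ * b) : ℝ)) / 2

/-- Loxodromic elements. -/
def loxl {Γ : Type*} [Group Γ] (l : Γ → ℕ) (g : Γ) : Prop :=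
  ∃ c : ℝ, 0 < c ∧ ∀ n : ℕ, c * (n : ℝ) ≤ (l (g ^ n) : ℝ)

/-- Same attracting end. -/
def samel {Γ : Type*} [Group Γ] (l : Γ → ℕ) (a b : Γ) : Prop :=
  ∀ K : ℝ, ∃ N : ℕ, ∀ n m : ℕ, N ≤ n → N ≤ m → K ≤ gpl l (a ^ n) (b ^ m)

namespace G

open T

theorem sh_t_zpow (k : ℤ) : sh (t ^ k) = k := by
  induction k using Int.induction_on with
  | zero => rfl
  | succ n ih => rw [zpow_add_one, sh_mul, ih, sh_t]
  | pred n ih => rw [zpow_sub_one, sh_mul, ih, sh_inv, sh_t]; ring

section

variable {l : G → ℕ} (hmul : ∀ g h, l (g * h) ≤ l g + l h) (hinv : ∀ g, l g⁻¹ = l g)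
  (h1 : l 1 = 0) {K : ℕ} (hK : ∀ g, sh g = 0 → l g ≤ K)

include hmul hinv hK

theorem near (g : G) : (l g : ℝ) ≤ l (t ^ sh g) + K ∧ (l (t ^ sh g) : ℝ) ≤ l g + K := by
  have hs : sh (g * (t ^ sh g)⁻¹) = 0 := by
    rw [sh_mul, sh_inv, sh_t_zpow]; ring
  have h2 := hK _ hs
  have h3 := hmul (g * (t ^ sh g)⁻¹) (t ^ sh g)
  have h4 := hmul (g * (t ^ sh g)⁻¹)⁻¹ g
  rw [inv_mul_cancel_right] at h3
  rw [hinv] at h4
  have h5 : (g * (t ^ sh g)⁻¹)⁻¹ * g = t ^ sh g := by group
  rw [h5] at h4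
  constructor
  · exact_mod_cast (by omega : l g ≤ l (t ^ sh g) + K)
  · exact_mod_cast (by omega : l (t ^ sh g) ≤ l g + K)

theorem sh_ne_zero {g : G} (hg : loxl l g) : sh g ≠ 0 := by
  intro h
  obtain ⟨c, hc, hg⟩ := hg
  obtain ⟨n, hn⟩ := exists_nat_gt ((K : ℝ) / c)
  have h2 := hg n
  have h3 := hK (g ^ n) (by rw [sh_pow, h, mul_zero])
  have h4 : (l (g ^ n) : ℝ) ≤ K := by exact_mod_cast h3
  rw [div_lt_iff₀ hc] at hn
  linarith [mul_comm c (n : ℝ)]

theorem natAbs_bound (_ : True) (n : ℕ) : l (t ^ (n : ℤ)) ≤ n * l t + K := by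
  induction n with
  | zero => 
    have := hK 1 rfl
    simpa using this
  | succ n ih =>
    rw [Nat.cast_succ, zpow_add_one]
    have := hmul (t ^ (n : ℤ)) t
    rw [Nat.succ_mul]
    omega

include h1

/-- Two loxodromic elements which shift in the same direction have the same end. -/
theorem same_of_sh {δ : ℝ}
    (hδ : ∀ x y z : G, min (gpl l x y) (gpl l y z) - δ ≤ gpl l x z) {g h : G}
    (hg : loxl l g) (hgh : (0 < sh g ∧ 0 < sh h) ∨ (sh g < 0 ∧ sh h < 0)) : samel l g h := by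
  set f : ℤ → ℝ := fun k => l (t ^ k) with hf
  have f0 : f 0 = 0 := by simp [hf, h1]
  have fneg : ∀ k, f (-k) = f k := by
    intro k; simp only [hf]; rw [zpow_neg, hinv]
  have fadd : ∀ k m, f (k + m) ≤ f k + f m := by
    intro k m
    simp only [hf]
    rw [zpow_add]
    exact_mod_cast hmul _ _
  have fδ : ∀ k m p : ℤ, min ((f k + f m - f (m - k)) / 2) ((f m + f p - f (p - m)) / 2) - δ ≤
      (f k + f p - f (p - k)) / 2 := by
    intro k m p
    have h2 := hδ (t ^ k) (t ^ m) (t ^ p)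
    unfold gpl at h2
    have e : ∀ a b : ℤ, (t ^ a)⁻¹ * t ^ b = t ^ (b - a) := by
      intro a b; rw [← zpow_neg, ← zpow_add]; congr 1; ring
    rw [e, e, e] at h2
    exact h2
  -- linear growth
  obtain ⟨c', B, hc', hB⟩ : ∃ c' B : ℝ, 0 < c' ∧ ∀ k : ℕ, c' * k - B ≤ f k := by
    obtain ⟨c, hc, hcg⟩ := hg
    have hp : 0 < (sh g).natAbs := by
      rcases hgh with h | h <;> omega
    set p := (sh g).natAbs with hpdef
    have hfp : ∀ n : ℕ, c * n - K ≤ f ((n * p : ℕ)) := by
      intro n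
      have h2 := hcg n
      have h3 := (near hmul hinv hK (g ^ n)).1
      rw [sh_pow] at h3
      have h4 : f (n * sh g) = f ((n * p : ℕ)) := by
        push_cast
        rcases hgh with h | h
        · have : (p : ℤ) = sh g := by omega
          rw [this]
        · have : (p : ℤ) = - sh g := by omega
          rw [this, mul_neg, fneg]
      have h5 : f (n * sh g) = l (t ^ (n * sh g)) := rfl
      rw [← h4, h5]
      linarith
    refine ⟨c / p, c + K + (p * l t + K), by positivity, fun k => ?_⟩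
    have h2 := hfp (k / p)
    have h3 : (k : ℤ) + -((k % p : ℕ) : ℤ) = ((k / p * p : ℕ) : ℤ) := by
      have := Nat.div_add_mod' k p
      omega
    have h4 := fadd k (-((k % p : ℕ) : ℤ))
    rw [h3, fneg] at h4
    have h5 : f ((k % p : ℕ)) ≤ p * l t + K := by
      have h6 := natAbs_bound hmul hinv hK trivial (k % p)
      have h7 : (k % p) * l t ≤ p * l t := Nat.mul_le_mul_right _ (Nat.mod_lt _ hp).le
      have h8 : l (t ^ ((k % p : ℕ) : ℤ)) ≤ p * l t + K := by omega
      show (l (t ^ ((k % p : ℕ) : ℤ)) : ℝ) ≤ _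
      exact_mod_cast h8
    have h6 : (k : ℝ) ≤ ((k / p : ℕ) : ℝ) * p + p := by
      have := Nat.div_add_mod' k p
      have h7 := Nat.mod_lt k hp
      exact_mod_cast (by omega : k ≤ k / p * p + p)
    have hp' : (0 : ℝ) < p := by exact_mod_cast hp
    have h7 : c / p * k ≤ c * ((k / p : ℕ) : ℝ) + c := by
      rw [div_mul_eq_mul_div, div_le_iff₀ hp']
      nlinarith
    linarith
  intro K₀
  obtain ⟨N, hN⟩ := line_end f δ f0 fneg fadd fδ c' B hc' hB (K₀ + 2 * K)
  refine ⟨N, fun n m hn hm => ?_⟩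
  have a1 := (near hmul hinv hK (g ^ n)).2
  have a2 := (near hmul hinv hK (h ^ m)).2
  have a3 := (near hmul hinv hK ((g ^ n)⁻¹ * h ^ m)).1
  rw [sh_mul, sh_inv] at a3
  rw [sh_pow] at a1 a2 a3
  rw [sh_pow] at a3
  unfold gpl
  rcases hgh with ⟨hg0, hh0⟩ | ⟨hg0, hh0⟩
  · have h2 := hN (n * sh g).toNat (m * sh h).toNat
      (by have : (n : ℤ) ≤ n * sh g := by nlinarith
          omega)
      (by have : (m : ℤ) ≤ m * sh h := by nlinarith
          omega)
    have e1 : ((n * sh g).toNat : ℤ) = n * sh g := Int.toNat_of_nonneg (by positivity)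
    have e2 : ((m * sh h).toNat : ℤ) = m * sh h := Int.toNat_of_nonneg (by positivity)
    rw [e1, e2] at h2
    have e3 : -(n * sh g) + m * sh h = m * sh h - n * sh g := by ring
    rw [e3] at a3
    simp only [hf] at h2
    linarith
  · have h2 := hN (n * -sh g).toNat (m * -sh h).toNat
      (by have : (n : ℤ) ≤ n * -sh g := by nlinarith
          omega)
      (by have : (m : ℤ) ≤ m * -sh h := by nlinarith
          omega)
    have e1 : ((n * -sh g).toNat : ℤ) = -(n * sh g) := by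
      rw [Int.toNat_of_nonneg (by nlinarith)]; ring
    have e2 : ((m * -sh h).toNat : ℤ) = -(m * sh h) := by
      rw [Int.toNat_of_nonneg (by nlinarith)]; ring
    rw [e1, e2, fneg, fneg, ← fneg (-(m * sh h) - -(n * sh g))] at h2
    have e3 : -(-(m * sh h) - -(n * sh g)) = -(n * sh g) + m * sh h := by ring
    rw [e3] at h2
    simp only [hf] at h2
    linarith

end

end G

end Pool.Agent.Q104.QP
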