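import Pool.Agent.Q104.QP.Kernel

set_option autoImplicit false

/-!
# The group has exactly one quasi-parabolic structure
-/

open Pointwise

namespace Pool.Agent.Q104.QP

namespace G

open T

/-- The displacement of the base vertex. -/
noncomputable def D (g : G) : ℤ := d (v 0) (g.1 (v 0))

/-- The generating set. -/
def Xs : Set G := {g | D g ≤ 1}

theorem D_nonneg (g : G) : 0 ≤ D g := d_nonneg _ _

theorem D_inv_mul (g h : G) : D (g⁻¹ * h) = d (g.1 (v 0)) (h.1 (v 0)) := by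
  unfold D
  rw [← d_app g, mul_app, app_inv_self]

theorem D_mul (g h : G) : D (g * h) ≤ D g + D h := by
  have h1 := d_triangle (v 0) (g.1 (v 0)) ((g * h).1 (v 0))
  have h2 : d (g.1 (v 0)) ((g * h).1 (v 0)) = D h := by
    rw [mul_app, d_app]; rfl
  rw [h2] at h1
  exact h1

theorem D_inv (g : G) : D g⁻¹ = D g := by
  unfold D
  rw [← d_app g, app_inv_self, d_comm]

theorem D_one : D 1 = 0 := by
  unfold D d
  rw [one_app, mu_self]; simp

theorem D_eq_zero {g : G} (h : D g = 0) : g.1 (v 0) = v 0 := (eq_of_d _ _ h).symm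

theorem Xs_inv : Xs ∪ Xs⁻¹ = Xs := by
  rw [Set.union_eq_left]
  intro g hg
  have : D g⁻¹ ≤ 1 := hg
  rwa [D_inv] at this

theorem D_le_of_mem (n : ℕ) {g : G} (h : g ∈ (Xs ∪ Xs⁻¹) ^ n) : D g ≤ n := by
  induction n generalizing g with
  | zero =>
    rw [pow_zero] at h
    have : g = 1 := h
    rw [this, D_one]; simp
  | succ n ih =>
    rw [pow_succ] at h
    obtain ⟨a, ha, b, hb, rfl⟩ := h
    have h1 := ih ha
    rw [Xs_inv] at hb
    have h2 : D b ≤ 1 := hb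
    have h3 := D_mul a b
    push_cast
    show D (a * b) ≤ _
    omega

theorem mu_par {x y : T} (h : x.lev + 1 ≤ mu x y) : mu (par x) y = mu x y := by
  have h1 : mu x (par x) ≤ x.lev + 1 := (R_iff _ _ _).1 ⟨1, 0, rfl, by simp⟩
  have h2 := mu_ultra (par x) x y
  have h3 := mu_ultra x (par x) y
  have h4 := lev_le_mu (par x) y
  rw [mu_comm (par x) x] at h2
  simp only [par_lev] at h4
  apply le_antisymm
  · rcases le_max_iff.1 h2 with h | h <;> omega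
  · rcases le_max_iff.1 h3 with h | h <;> omega

theorem d_par {x y : T} (h : x.lev + 1 ≤ mu x y) : d (par x) y = d x y - 1 := by
  unfold d
  rw [mu_par h]
  simp only [par_lev]
  ring

/-- Shortening on the left or on the right. -/
theorem shorten {g : G} (h : 1 ≤ D g) : D (t⁻¹ * g) = D g - 1 ∨ D (g * t) = D g - 1 := by
  by_cases h1 : 1 ≤ mu (v 0) (g.1 (v 0))
  · left
    rw [D_inv_mul, t_v, ← par_v, d_par (by simpa using h1)]
    rfl
  · right
    have h2 := lev_le_mu (v 0) (g.1 (v 0))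
    have h3 := lev_le_mu' (v 0) (g.1 (v 0))
    have h4 : D g = 2 * mu (v 0) (g.1 (v 0)) - 0 - (g.1 (v 0)).lev := rfl
    simp only [v_lev] at h2
    have e1 : D (g * t) = d (v 0) (par (g.1 (v 0))) := by
      unfold D
      rw [mul_app, t_v, ← par_v, par_comm]
    rw [e1, d_comm, d_par, d_comm]
    · rfl
    · rw [mu_comm]; omega

theorem t_mem : t ∈ Xs := by
  show D t ≤ 1
  have h1 : mu (v 0) (v 1) ≤ 1 := (R_iff _ _ _).1 ⟨1, 0, rfl, by simp⟩
  have : D t = 2 * mu (v 0) (v 1) - 0 - 1 := rfl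
  omega

theorem t_inv_mem : t⁻¹ ∈ Xs := by
  show D t⁻¹ ≤ 1
  rw [D_inv]; exact t_mem

theorem mem_pow (n : ℕ) {g : G} (h : D g ≤ n + 1) : g ∈ (Xs ∪ Xs⁻¹) ^ (n + 1) := by
  induction n generalizing g with
  | zero =>
    rw [zero_add, pow_one]
    left
    show D g ≤ 1
    simpa using h
  | succ n ih =>
    by_cases h1 : D g ≤ n + 1
    · rw [pow_succ]
      refine ⟨g, ih h1, 1, Or.inl ?_, mul_one g⟩
      show D 1 ≤ 1
      rw [D_one]; norm_num
    · push Not at h1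
      rcases shorten (g := g) (by omega) with h2 | h2
      · rw [pow_succ']
        refine ⟨t, Or.inl t_mem, t⁻¹ * g, ih (by push_cast at h; omega), ?_⟩
        show t * (t⁻¹ * g) = g
        group
      · rw [pow_succ]
        refine ⟨g * t, ih (by push_cast at h; omega), t⁻¹, Or.inl t_inv_mem, ?_⟩
        show g * t * t⁻¹ = g
        group

theorem wl_bounds (g : G) : (D g : ℝ) ≤ wl Xs g ∧ (wl Xs g : ℝ) ≤ D g + 1 := by
  have hD := D_nonneg g
  have h1 : g ∈ (Xs ∪ Xs⁻¹) ^ ((D g).toNat + 1) := mem_pow _ (by omega)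
  constructor
  · have h2 : g ∈ (Xs ∪ Xs⁻¹) ^ (wl Xs g) :=
      Nat.sInf_mem (s := {n : ℕ | g ∈ (Xs ∪ Xs⁻¹) ^ n}) ⟨_, h1⟩
    have h3 := D_le_of_mem _ h2
    exact_mod_cast h3
  · have h2 := wl_le h1
    have h3 : ((wl Xs g : ℕ) : ℤ) ≤ D g + 1 := by omega
    exact_mod_cast h3

theorem closure_Xs : Subgroup.closure Xs = ⊤ := by
  rw [eq_top_iff]
  intro g _
  have hD := D_nonneg g
  have h1 : g ∈ (Xs ∪ Xs⁻¹) ^ ((D g).toNat + 1) := mem_pow _ (by omega)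
  rw [Xs_inv] at h1
  have key : ∀ n : ℕ, ∀ g : G, g ∈ Xs ^ n → g ∈ Subgroup.closure Xs := by
    intro n
    induction n with
    | zero =>
      intro g hg
      rw [pow_zero] at hg
      have : g = 1 := hg
      rw [this]; exact one_mem _
    | succ n ih =>
      intro g hg
      rw [pow_succ] at hg
      obtain ⟨a, ha, b, hb, rfl⟩ := hg
      exact mul_mem (ih a ha) (Subgroup.subset_closure hb)
  exact key _ g h1

/-- The Gromov product on the tree. -/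
theorem gp_bounds (a b : G) :
    (mu (v 0) (a.1 (v 0)) + mu (v 0) (b.1 (v 0)) - mu (a.1 (v 0)) (b.1 (v 0)) : ℝ) - 1 / 2 ≤
      gpl (wl Xs) a b ∧
    gpl (wl Xs) a b ≤
      (mu (v 0) (a.1 (v 0)) + mu (v 0) (b.1 (v 0)) - mu (a.1 (v 0)) (b.1 (v 0)) : ℝ) + 1 := by
  have h1 := wl_bounds a
  have h2 := wl_bounds b
  have h3 := wl_bounds (a⁻¹ * b)
  have e1 : (D a : ℝ) = 2 * mu (v 0) (a.1 (v 0)) - (a.1 (v 0)).lev := by
    have : D a = 2 * mu (v 0) (a.1 (v 0)) - (a.1 (v 0)).lev := by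
      unfold D d; simp
    exact_mod_cast this
  have e2 : (D b : ℝ) = 2 * mu (v 0) (b.1 (v 0)) - (b.1 (v 0)).lev := by
    have : D b = 2 * mu (v 0) (b.1 (v 0)) - (b.1 (v 0)).lev := by
      unfold D d; simp
    exact_mod_cast this
  have e3 : (D (a⁻¹ * b) : ℝ) = 2 * mu (a.1 (v 0)) (b.1 (v 0)) - (a.1 (v 0)).lev -
      (b.1 (v 0)).lev := by
    have : D (a⁻¹ * b) = 2 * mu (a.1 (v 0)) (b.1 (v 0)) - (a.1 (v 0)).lev -
      (b.1 (v 0)).lev := by rw [D_inv_mul]; rfl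
    exact_mod_cast this
  unfold gpl
  constructor <;> linarith

theorem hyp (x y z : G) : min (gpl (wl Xs) x y) (gpl (wl Xs) y z) - 2 ≤ gpl (wl Xs) x z := by
  have h1 := (gp_bounds x y).2
  have h2 := (gp_bounds y z).2
  have h3 := (gp_bounds x z).1
  have h4 := four (v 0) (x.1 (v 0)) (y.1 (v 0)) (z.1 (v 0))
  rcases le_max_iff.1 h4 with h | h
  · have h' : (mu (x.1 (v 0)) (z.1 (v 0)) + mu (v 0) (y.1 (v 0)) : ℝ) ≤
      mu (x.1 (v 0)) (y.1 (v 0)) + mu (v 0) (z.1 (v 0)) := by exact_mod_cast h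
    have := min_le_left (gpl (wl Xs) x y) (gpl (wl Xs) y z)
    linarith
  · have h' : (mu (x.1 (v 0)) (z.1 (v 0)) + mu (v 0) (y.1 (v 0)) : ℝ) ≤
      mu (y.1 (v 0)) (z.1 (v 0)) + mu (v 0) (x.1 (v 0)) := by exact_mod_cast h
    have := min_le_right (gpl (wl Xs) x y) (gpl (wl Xs) y z)
    linarith

theorem lev_base (g : G) : (g.1 (v 0)).lev = sh g := rfl

theorem sh_le_D (g : G) : |sh g| ≤ D g := by
  have h1 := lev_le_mu (v 0) (g.1 (v 0))
  have h2 := lev_le_mu' (v 0) (g.1 (v 0))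
  have h3 : D g = 2 * mu (v 0) (g.1 (v 0)) - 0 - (g.1 (v 0)).lev := rfl
  rw [lev_base] at *
  simp only [v_lev] at h1
  rw [abs_le]
  constructor <;> omega

theorem lox_of_sh {g : G} (h : sh g ≠ 0) : loxl (wl Xs) g := by
  refine ⟨1, one_pos, fun n => ?_⟩
  have h1 := sh_le_D (g ^ n)
  rw [sh_pow, abs_mul] at h1
  have h2 : (1 : ℤ) ≤ |sh g| := Int.one_le_abs h
  have h3 : (n : ℤ) ≤ D (g ^ n) := by
    have : (n : ℤ) ≤ |(n : ℤ)| * |sh g| := by
      rw [abs_of_nonneg (by positivity : (0 : ℤ) ≤ n)]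
      nlinarith
    linarith
  have h4 := (wl_bounds (g ^ n)).1
  have h5 : (n : ℝ) ≤ D (g ^ n) := by exact_mod_cast h3
  linarith

theorem sh_of_lox {g : G} (h : loxl (wl Xs) g) : sh g ≠ 0 := by
  intro h0
  obtain ⟨c, hc, hg⟩ := h
  have key : ∀ n : ℕ, mu (v 0) ((g ^ n).1 (v 0)) ≤ mu (v 0) (g.1 (v 0)) := by
    intro n
    induction n with
    | zero =>
      rw [pow_zero, one_app, mu_self]
      exact lev_le_mu _ _
    | succ n ih =>
      have h1 := mu_ultra (v 0) (g.1 (v 0)) ((g ^ (n + 1)).1 (v 0))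
      have h2 : mu (g.1 (v 0)) ((g ^ (n + 1)).1 (v 0)) = mu (v 0) ((g ^ n).1 (v 0)) := by
        rw [pow_succ', mul_app, mu_app, h0, add_zero]
      rw [h2] at h1
      rcases le_max_iff.1 h1 with h | h <;> omega
  have key2 : ∀ n : ℕ, c * n ≤ 2 * mu (v 0) (g.1 (v 0)) + 1 := by
    intro n
    have h1 := (wl_bounds (g ^ n)).2
    have h2 : D (g ^ n) = 2 * mu (v 0) ((g ^ n).1 (v 0)) - 0 - sh (g ^ n) := rfl
    rw [sh_pow, h0, mul_zero] at h2
    have h3 : D (g ^ n) ≤ 2 * mu (v 0) (g.1 (v 0)) := by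
      have := key n; omega
    have h4 : (D (g ^ n) : ℝ) ≤ 2 * mu (v 0) (g.1 (v 0)) := by exact_mod_cast h3
    have := hg n
    linarith
  obtain ⟨n, hn⟩ := exists_nat_gt (((2 : ℝ) * mu (v 0) (g.1 (v 0)) + 1) / c)
  rw [div_lt_iff₀ hc] at hn
  have := key2 n
  linarith [mul_comm c (n : ℝ)]

theorem same_of_pos {g h : G} (hg : 0 < sh g) (hh : 0 < sh h) : samel (wl Xs) g h := by
  intro K
  obtain ⟨N, hN⟩ := exists_nat_ge (K + 1)
  refine ⟨N, fun n m hn hm => ?_⟩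
  have h1 := (gp_bounds (g ^ n) (h ^ m)).1
  have h2 := mu_ultra ((g ^ n).1 (v 0)) (v 0) ((h ^ m).1 (v 0))
  have h3 := lev_le_mu' (v 0) ((g ^ n).1 (v 0))
  have h4 := lev_le_mu' (v 0) ((h ^ m).1 (v 0))
  rw [lev_base, sh_pow] at h3 h4
  rw [mu_comm _ (v 0)] at h2
  have h5 : (N : ℤ) ≤ n * sh g := by nlinarith
  have h6 : (N : ℤ) ≤ m * sh h := by nlinarith
  have h7 : (N : ℤ) ≤ mu (v 0) ((g ^ n).1 (v 0)) + mu (v 0) ((h ^ m).1 (v 0)) -
      mu ((g ^ n).1 (v 0)) ((h ^ m).1 (v 0)) := by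
    rcases le_max_iff.1 h2 with h | h <;> omega
  have h8 : (N : ℝ) ≤ mu (v 0) ((g ^ n).1 (v 0)) + mu (v 0) ((h ^ m).1 (v 0)) -
      mu ((g ^ n).1 (v 0)) ((h ^ m).1 (v 0)) := by exact_mod_cast h7
  linarith

/-- A second loxodromic element. -/
noncomputable def s : G := E (v 0) 0 1

theorem s_v : s.1 (v 0) = v 0 := ef_of_lev _ _ _ le_rfl

theorem s_inv_v : s⁻¹.1 (v 0) = v 0 := fix_inv s_v

theorem s_v' : s.1 (v (-1)) ≠ v (-1) := by
  intro h
  have h1 := congrFun (congrArg T.lab h) 0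
  have h2 : (s.1 (v (-1))).lab 0 = Equiv.swap (0 : ℝ) 1 ((v (-1)).lab 0) := by
    apply ef_pos
    show par (v (-1)) = v 0
    rfl
  rw [h2] at h1
  simp at h1

/-- The conjugate of the translation. -/
noncomputable def u : G := s * t * s⁻¹

theorem u_pow (n : ℕ) : u ^ n = s * t ^ n * s⁻¹ := by
  unfold u
  exact conj_pow

theorem sh_u : sh u = 1 := by
  unfold u
  rw [sh_mul, sh_mul, sh_inv, sh_t]
  ring

theorem u_inv_pow_v (m : ℕ) : (u⁻¹ ^ m).1 (v 0) = s.1 (v (-m)) := by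
  have : u⁻¹ ^ m = s * (t ^ m)⁻¹ * s⁻¹ := by
    rw [inv_pow, u_pow]; group
  rw [this, mul_app, mul_app, s_inv_v, t_pow_inv_v, zero_sub]

theorem mu_s (m : ℕ) : mu (v 0) (s.1 (v (-m))) = 0 := by
  apply le_antisymm
  · have : par^[m] (s.1 (v (-m))) = v 0 := by rw [iter_comm, iter_v, neg_add_cancel, s_v]
    exact (R_iff _ _ _).1 ⟨0, m, this.symm, rfl⟩
  · exact lev_le_mu (v 0) _

theorem not_same1 : ¬ samel (wl Xs) t⁻¹ u⁻¹ := by
  intro h
  obtain ⟨N, hN⟩ := h 2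
  have h1 := hN (N + 1) (N + 1) (by omega) (by omega)
  have h2 := (gp_bounds (t⁻¹ ^ (N + 1)) (u⁻¹ ^ (N + 1))).2
  have e1 : (t⁻¹ ^ (N + 1)).1 (v 0) = v (-((N + 1 : ℕ) : ℤ)) := by
    rw [inv_pow, t_pow_inv_v, zero_sub]
  rw [e1, u_inv_pow_v, mu_s] at h2
  have h3 : mu (v 0) (v (-((N + 1 : ℕ) : ℤ))) ≤ 0 := by
    have : par^[N + 1] (v (-((N + 1 : ℕ) : ℤ))) = v 0 := by rw [iter_v, neg_add_cancel]
    exact (R_iff _ _ _).1 ⟨0, N + 1, this.symm, rfl⟩
  have h4 : 0 ≤ mu (v (-((N + 1 : ℕ) : ℤ))) (s.1 (v (-((N + 1 : ℕ) : ℤ)))) := by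
    by_contra hcon
    push Not at hcon
    have h5 : R (-1) (v (-((N + 1 : ℕ) : ℤ))) (s.1 (v (-((N + 1 : ℕ) : ℤ)))) :=
      (R_iff _ _ _).2 (by omega)
    obtain ⟨a, b, h6, h7⟩ := h5
    have h8 := lev_of h6
    rw [lev_app] at h8
    have hs : sh s = 0 := by
      rw [← lev_base, s_v]; rfl
    simp only [v_lev, hs] at h7 h8
    have hab : a = b := by omega
    subst hab
    rw [iter_comm, iter_v, h7] at h6
    exact s_v' h6.symm
  have h5 : (mu (v 0) (v (-((N + 1 : ℕ) : ℤ))) : ℝ) ≤ 0 := by exact_mod_cast h3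
  have h6 : (0 : ℝ) ≤ mu (v (-((N + 1 : ℕ) : ℤ))) (s.1 (v (-((N + 1 : ℕ) : ℤ)))) := by
    exact_mod_cast h4
  simp only [Int.cast_zero] at h2
  linarith

theorem not_same2 : ¬ samel (wl Xs) t u⁻¹ := by
  intro h
  obtain ⟨N, hN⟩ := h 2
  have h1 := hN N N le_rfl le_rfl
  have h2 := (gp_bounds (t ^ N) (u⁻¹ ^ N)).2
  have e1 : (t ^ N).1 (v 0) = v N := by
    rw [t_pow_v, zero_add]
  rw [e1, u_inv_pow_v, mu_s] at h2
  have h3 : mu (v 0) (v N) ≤ N := by
    refine (R_iff _ _ _).1 ⟨N, 0, ?_, by simp⟩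
    rw [iter_v, zero_add]
    rfl
  have h4 : (N : ℤ) ≤ mu (v N) (s.1 (v (-N))) := lev_le_mu (v N) _
  have h5 : (mu (v 0) (v N) : ℝ) ≤ N := by exact_mod_cast h3
  have h6 : (N : ℝ) ≤ mu (v N) (s.1 (v (-N))) := by
    exact_mod_cast h4
  simp only [Int.cast_zero] at h2
  linarith

/-- The dichotomy: if a length function is bounded on the stabiliser of the base vertex and on
elements with arbitrarily large displacement, then it is bounded on the kernel of `sh`. -/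
theorem bounded_kernel {l : G → ℕ} (hmul : ∀ g h, l (g * h) ≤ l g + l h)
    (hinv : ∀ g, l g⁻¹ = l g) {C : ℕ} (hC : ∀ g : G, g.1 (v 0) = v 0 → l g ≤ C) {C' : ℕ}
    (hY : ∀ n : ℤ, ∃ y : G, l y ≤ C' ∧ n ≤ D y) (g : G) (hg : sh g = 0) :
    l g ≤ 3 * C + 2 * C' := by
  obtain ⟨y, hy, hD⟩ := hY (2 * mu (v 0) (g.1 (v 0)) + 2)
  -- an element `z` with large meet
  obtain ⟨z, hz, hz'⟩ : ∃ z : G, l z ≤ C' ∧ mu (v 0) (g.1 (v 0)) + 1 ≤ mu (v 0) (z.1 (v 0)) := by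
    by_cases h1 : mu (v 0) (g.1 (v 0)) + 1 ≤ mu (v 0) (y.1 (v 0))
    · exact ⟨y, hy, h1⟩
    · refine ⟨y⁻¹, by rw [hinv]; exact hy, ?_⟩
      have h2 : mu (v 0) (y.1 (v 0)) = mu (v 0) (y⁻¹.1 (v 0)) + sh y := by
        rw [mu_comm (v 0) (y⁻¹.1 (v 0)), ← mu_app, app_inv_self]
      have h3 : D y = 2 * mu (v 0) (y.1 (v 0)) - 0 - sh y := rfl
      omega
  have hmu0 := lev_le_mu (v 0) (g.1 (v 0))
  simp only [v_lev] at hmu0
  -- the meet of `v 0` and `z v 0`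
  set a := mu (v 0) (z.1 (v 0)) with ha
  have hfixa : g.1 (v a) = v a := by
    have h1 : R a (v 0) (g.1 (v 0)) := (R_iff _ _ _).2 (by omega)
    obtain ⟨p, q, h2, h3⟩ := h1
    have h4 := lev_of h2
    rw [lev_base, hg] at h4
    simp only [v_lev] at h3 h4
    have hpq : p = q := by omega
    subst hpq
    rw [iter_comm, iter_v, h3] at h2
    exact h2.symm
  obtain ⟨p, q, h2, h3⟩ : R a (v 0) (z.1 (v 0)) := (R_iff _ _ _).2 le_rfl
  simp only [v_lev] at h3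
  have hp : par^[p] (v 0) = v a := by rw [iter_v, h3]
  have hconj : ∀ k : G, k.1 (z.1 (v 0)) = z.1 (v 0) → l k ≤ C + 2 * C' := by
    intro k hk
    have h4 : l (z⁻¹ * k * z) ≤ C := by
      apply hC
      rw [mul_app, mul_app, hk, inv_app_self]
    have e1 : k = z * (z⁻¹ * k * z) * z⁻¹ := by group
    have a1 := hmul (z * (z⁻¹ * k * z)) z⁻¹
    have a2 := hmul z (z⁻¹ * k * z)
    rw [hinv] at a1
    rw [e1]
    omega
  obtain ⟨p', rfl⟩ : ∃ p', p = p' + 1 := ⟨p - 1, by omega⟩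
  rcases q with _ | q'
  · -- `z v 0 = v a`
    have h4 : z.1 (v 0) = v a := by rw [← hp, h2]; rfl
    have := hconj g (by rw [h4]; exact hfixa)
    omega
  · set w := par^[p'] (v 0) with hw
    set x := par^[q'] (z.1 (v 0)) with hx
    have hwp : par w = v a := by
      rw [hw, ← Function.iterate_succ_apply' par p' (v 0)]; exact hp
    have hxp : par x = v a := by
      rw [hx, ← Function.iterate_succ_apply' par q' (z.1 (v 0)), ← h2]; exact hp
    have hne : w ≠ x := by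
      intro h
      have h4 : R (a - 1) (v 0) (z.1 (v 0)) := ⟨p', q', h, by
        simp only [v_lev]; push_cast at h3; omega⟩
      have h5 := (R_iff _ _ _).1 h4
      omega
    obtain ⟨k₁, k₂, k₃, rfl, f1, f2, f3⟩ := three (v a) w x hwp hxp hne g hfixa
    have m1 : v 0 ∈ Dsc w := ⟨p', rfl⟩
    have m2 : z.1 (v 0) ∈ Dsc x := ⟨q', rfl⟩
    have b1 := hC k₁ (f1 _ m1)
    have b2 := hconj k₂ (f2 _ m2)
    have b3 := hC k₃ (f3 _ m1)
    have a1 := hmul (k₁ * k₂) k₃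
    have a2 := hmul k₁ k₂
    omega

end G

end Pool.Agent.Q104.QP
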