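import Pool.Agent.Q104.QP.Group

set_option autoImplicit false

/-!
# Elementary swaps and the decomposition of vertex stabilisers
-/

namespace Pool.Agent.Q104.QP

open T Equiv

namespace G

theorem iter_ne_self (k : ℕ) (x : T) : par^[k + 1] x ≠ x := by
  intro h
  have := congrArg T.lev h
  rw [iter_lev] at this
  push_cast at this
  omega

open Classical in
/-- Swap the labels `i` and `j` of the children of `p`. -/
noncomputable def ef (p : T) (i j : ℝ) (x : T) : T :=
  ⟨x.lev, fun k => if par^[k + 1] x = p then Equiv.swap i j (x.lab k) else x.lab k, by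
    obtain ⟨N, hN⟩ := x.fin
    refine ⟨N + (p.lev - x.lev).toNat, fun k hk => ?_⟩
    rw [if_neg, hN k (by omega)]
    intro h
    have := congrArg T.lev h
    rw [iter_lev] at this
    omega⟩

theorem ef_pos {p : T} {i j : ℝ} {x : T} {k : ℕ} (h : par^[k + 1] x = p) :
    (ef p i j x).lab k = Equiv.swap i j (x.lab k) := if_pos h

theorem ef_neg {p : T} {i j : ℝ} {x : T} {k : ℕ} (h : par^[k + 1] x ≠ p) :
    (ef p i j x).lab k = x.lab k := if_neg h

theorem ef_par (p : T) (i j : ℝ) (x : T) : par (ef p i j x) = ef p i j (par x) := by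
  ext k
  · rfl
  · rw [par_lab]
    by_cases h : par^[k + 1 + 1] x = p
    · rw [ef_pos h, ef_pos (by rwa [Function.iterate_succ_apply] at h)]
      rfl
    · rw [ef_neg h, ef_neg (by rwa [Function.iterate_succ_apply] at h)]
      rfl

theorem ef_iter (p : T) (i j : ℝ) (n : ℕ) (x : T) :
    par^[n] (ef p i j x) = ef p i j (par^[n] x) := by
  induction n generalizing x with
  | zero => rfl
  | succ n ih => rw [Function.iterate_succ_apply, ef_par, ih]; rfl

theorem ef_of_lev (p : T) (i j : ℝ) {x : T} (h : p.lev ≤ x.lev) : ef p i j x = x := by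
  ext k
  · rfl
  · rw [ef_neg]
    intro h'
    have := congrArg T.lev h'
    rw [iter_lev] at this
    push_cast at this
    omega

theorem ef_eq_iff (p : T) (i j : ℝ) (x : T) : ef p i j x = p ↔ x = p := by
  constructor
  · intro h
    have : p.lev = x.lev := by rw [← congrArg T.lev h]; rfl
    rwa [ef_of_lev p i j this.le] at h
  · rintro rfl
    exact ef_of_lev _ _ _ le_rfl

theorem ef_ef (p : T) (i j : ℝ) (x : T) : ef p i j (ef p i j x) = x := by
  ext k
  · rfl
  · have : par^[k + 1] (ef p i j x) = p ↔ par^[k + 1] x = p := by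
      rw [ef_iter, ef_eq_iff]
    by_cases h : par^[k + 1] x = p
    · rw [ef_pos (this.2 h), ef_pos h, Equiv.swap_apply_self]
    · rw [ef_neg (fun h' => h (this.1 h')), ef_neg h]

theorem ef_supp (p : T) (i j : ℝ) : Supp ({i, j} ∪ Set.range p.lab) (ef p i j) := by
  intro x k hk l hl
  by_cases h : par^[l + 1] x = p
  · rw [ef_pos h]
    rcases hl.eq_or_lt with rfl | hl
    · apply Equiv.swap_apply_of_ne_of_ne
      · rintro rfl; exact hk (by simp)
      · rintro rfl; exact hk (by simp)
    · exfalso
      apply hk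
      right
      refine ⟨k - l - 1, ?_⟩
      rw [← h, iter_lab]
      congr 1
      omega
  · rw [ef_neg h]

/-- The elementary swap as an element of the group. -/
noncomputable def E (p : T) (i j : ℝ) : G :=
  ⟨⟨ef p i j, ef p i j, ef_ef p i j, ef_ef p i j⟩, ef_par p i j, {i, j} ∪ Set.range p.lab,
    (Set.countable_insert.2 (Set.countable_singleton j)).union (Set.countable_range _),
    ef_supp p i j, ef_supp p i j⟩

theorem E_app (p : T) (i j : ℝ) (x : T) : (E p i j).1 x = ef p i j x := rfl

/-- The child with label `c`. -/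
def child (p : T) (c : ℝ) : T :=
  ⟨p.lev - 1, fun k => Nat.casesOn k c p.lab, by
    obtain ⟨N, hN⟩ := p.fin
    refine ⟨N + 1, fun k hk => ?_⟩
    rcases k with _ | k
    · omega
    · exact hN k (by omega)⟩

theorem par_child (p : T) (c : ℝ) : par (child p c) = p := by
  ext k
  · simp [child]
  · rfl

theorem child_lab (p : T) (c : ℝ) : (child p c).lab 0 = c := rfl

theorem eq_of_par {x y : T} (h : par x = par y) (h' : x.lab 0 = y.lab 0) : x = y := by
  ext k
  · have := congrArg T.lev h
    simpa using this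
  · rcases k with _ | k
    · exact h'
    · have := congrFun (congrArg T.lab h) k
      exact this

theorem E_child (p x y : T) (hx : par x = p) (hy : par y = p) :
    (E p (x.lab 0) (y.lab 0)).1 x = y := by
  apply eq_of_par
  · rw [par_comm, hx, hy]
    exact ef_of_lev _ _ _ le_rfl
  · rw [E_app, ef_pos (by exact hx), Equiv.swap_apply_left]

theorem fix_inv {g : G} {y : T} (h : g.1 y = y) : g⁻¹.1 y = y := by
  conv_lhs => rw [← h]
  exact inv_app_self g y

theorem two (p w x : T) (hw : par w = p) (hx : par x = p) (hne : w ≠ x) (q : G)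
    (hq : q.1 p = p) (h : q.1 w ≠ x) :
    ∃ r : G, (∀ y ∈ Dsc w, (r * q).1 y = y) ∧ (∀ y ∈ Dsc x, r.1 y = y) := by
  have hqw : par (q.1 w) = p := by rw [par_comm, hw, hq]
  have h1 : par (q⁻¹.1 (q.1 w)) = par (q.1 w) := by rw [inv_app_self, hqw, hw]
  have l1 : w.lev = x.lev := by
    have := congrArg T.lev (hw.trans hx.symm); simpa using this
  have l2 : (q.1 w).lev = x.lev := by
    have := congrArg T.lev (hqw.trans hx.symm); simpa using this
  refine ⟨sw q⁻¹ (q.1 w) h1, ?_, ?_⟩
  · intro y hy
    rw [mul_app, sw_of_mem _ _ _ (app_mem q hy), inv_app_self]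
  · intro y hy
    apply sw_of_notMem
    · intro h2
      exact h (eq_of_mem h2 hy l2)
    · rw [inv_app_self]
      intro h2
      exact hne (eq_of_mem h2 hy l1)

/-- Every element fixing `p` is a product of three elements, the outer ones fix the descendants of
the child `w`, and the inner one fixes the descendants of the child `x`. -/
theorem three (p w x : T) (hw : par w = p) (hx : par x = p) (hne : w ≠ x) (q : G)
    (hq : q.1 p = p) :
    ∃ k₁ k₂ k₃ : G, q = k₁ * k₂ * k₃ ∧ (∀ y ∈ Dsc w, k₁.1 y = y) ∧ (∀ y ∈ Dsc x, k₂.1 y = y) ∧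
      (∀ y ∈ Dsc w, k₃.1 y = y) := by
  by_cases h : q.1 w = x
  · -- a third child
    obtain ⟨c, hc⟩ : ∃ c : ℝ, c ∉ ({w.lab 0, x.lab 0} : Set ℝ) :=
      Set.Infinite.exists_notMem_finite (s := Set.univ) Set.infinite_univ
        (Set.toFinite _) |>.imp (fun _ h => h.2)
    set z := child p c with hz
    have hzp : par z = p := par_child p c
    have hzw : z ≠ w := by
      intro h; apply hc; rw [← h]; simp [hz, child_lab]
    have hzx : z ≠ x := by
      intro h; apply hc; rw [← h]; simp [hz, child_lab]
    have he := E_child p x z hx hzp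
    have hpe : par ((E p (x.lab 0) (z.lab 0)).1 x) = par x := by rw [he, hzp, hx]
    set r := sw (E p (x.lab 0) (z.lab 0)) x hpe with hr
    have hrx : r.1 x = z := by rw [hr, sw_of_mem _ _ _ (self_mem x), he]
    have l1 : w.lev = x.lev := by
      have := congrArg T.lev (hw.trans hx.symm); simpa using this
    have l2 : z.lev = x.lev := by
      have := congrArg T.lev (hzp.trans hx.symm); simpa using this
    have hrw : ∀ y ∈ Dsc w, r.1 y = y := by
      intro y hy
      rw [hr]
      apply sw_of_notMem
      · intro h2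
        exact hne (eq_of_mem hy h2 l1)
      · rw [he]
        intro h2
        exact hzw (eq_of_mem h2 hy (l2.trans l1.symm))
    have hrp : r.1 p = p := by
      rw [← hw, ← par_comm, hrw w (self_mem w)]
    obtain ⟨s, hs1, hs2⟩ := two p w x hw hx hne (r * q) (by rw [mul_app, hq, hrp])
      (by rw [mul_app, h, hrx]; exact hzx)
    refine ⟨r⁻¹, s⁻¹, s * (r * q), by group, ?_, ?_, hs1⟩
    · intro y hy; exact fix_inv (hrw y hy)
    · intro y hy; exact fix_inv (hs2 y hy)
  · obtain ⟨s, hs1, hs2⟩ := two p w x hw hx hne q hq h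
    refine ⟨1, s⁻¹, s * q, by group, fun _ _ => rfl, ?_, hs1⟩
    intro y hy; exact fix_inv (hs2 y hy)

end G

end Pool.Agent.Q104.QP
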