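import Mathlib

set_option autoImplicit false

/-!
# A rooted-at-infinity tree with uncountably many children at each vertex
-/

namespace Pool.Agent.Q104.QP

/-- The vertices: a level and an eventually zero sequence of labels. -/
@[ext] structure T where
  /-- the level -/
  lev : ℤ
  /-- the labels, from the vertex upwards -/
  lab : ℕ → ℝ
  fin : ∃ N, ∀ k, N ≤ k → lab k = 0

namespace T

/-- The parent of a vertex. -/
def par (x : T) : T :=
  ⟨x.lev + 1, fun k => x.lab (k + 1), by
    obtain ⟨N, hN⟩ := x.fin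
    exact ⟨N, fun k hk => hN _ (by omega)⟩⟩

@[simp] theorem par_lev (x : T) : (par x).lev = x.lev + 1 := rfl
@[simp] theorem par_lab (x : T) (k : ℕ) : (par x).lab k = x.lab (k + 1) := rfl

theorem iter_lev (n : ℕ) (x : T) : (par^[n] x).lev = x.lev + n := by
  induction n generalizing x with
  | zero => simp
  | succ n ih => rw [Function.iterate_succ_apply, ih]; simp; ring

theorem iter_lab (n : ℕ) (x : T) (k : ℕ) : (par^[n] x).lab k = x.lab (k + n) := by
  induction n generalizing x with
  | zero => simp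
  | succ n ih => rw [Function.iterate_succ_apply, ih]; simp; congr 1

/-- The vertices of the main line. -/
def v (j : ℤ) : T := ⟨j, fun _ => 0, ⟨0, fun _ _ => rfl⟩⟩

@[simp] theorem v_lev (j : ℤ) : (v j).lev = j := rfl
@[simp] theorem v_lab (j : ℤ) (k : ℕ) : (v j).lab k = 0 := rfl

theorem par_v (j : ℤ) : par (v j) = v (j + 1) := rfl

theorem iter_v (n : ℕ) (j : ℤ) : par^[n] (v j) = v (j + n) := by
  ext k
  · rw [iter_lev]; rfl
  · rw [iter_lab]; rfl

theorem eq_v {x : T} (h : ∀ k, x.lab k = 0) : x = v x.lev := by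
  ext k
  · rfl
  · exact h k

theorem exists_up (x : T) : ∃ n : ℕ, ∀ m, n ≤ m → par^[m] x = v (x.lev + m) := by
  obtain ⟨N, hN⟩ := x.fin
  refine ⟨N, fun m hm => ?_⟩
  ext k
  · rw [iter_lev]; rfl
  · rw [iter_lab]; exact hN _ (by omega)

/-- `x` and `y` have the same ancestor at level `l`. -/
def R (l : ℤ) (x y : T) : Prop := ∃ a b : ℕ, par^[a] x = par^[b] y ∧ x.lev + a = l

theorem lev_of {x y : T} {a b : ℕ} (h : par^[a] x = par^[b] y) :
    x.lev + a = y.lev + b := by
  rw [← iter_lev, ← iter_lev, h]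

theorem R.symm {l : ℤ} {x y : T} (h : R l x y) : R l y x := by
  obtain ⟨a, b, h1, h2⟩ := h
  exact ⟨b, a, h1.symm, by rw [← lev_of h1, h2]⟩

theorem R.trans {l : ℤ} {x y z : T} (h : R l x y) (h' : R l y z) : R l x z := by
  obtain ⟨a, b, h1, h2⟩ := h
  obtain ⟨c, e, h3, h4⟩ := h'
  have h5 := lev_of h1
  have : b = c := by omega
  subst this
  exact ⟨a, e, h1.trans h3, h2⟩

theorem R.mono {l l' : ℤ} {x y : T} (h : R l x y) (hl : l ≤ l') : R l' x y := by
  obtain ⟨a, b, h1, h2⟩ := h
  refine ⟨(l' - l).toNat + a, (l' - l).toNat + b, ?_, ?_⟩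
  · rw [Function.iterate_add_apply, h1, ← Function.iterate_add_apply]
  · push_cast; omega

theorem R.refl (x : T) : R x.lev x x := ⟨0, 0, rfl, by simp⟩

theorem exists_R (x y : T) : ∃ a : ℕ, R (x.lev + a) x y := by
  obtain ⟨n, hn⟩ := exists_up x
  obtain ⟨m, hm⟩ := exists_up y
  refine ⟨n + m + (y.lev - x.lev).toNat, n + m + (y.lev - x.lev).toNat,
    (x.lev + n + m + (y.lev - x.lev).toNat - y.lev).toNat, ?_, rfl⟩
  rw [hn _ (by omega), hm _ (by omega)]
  congr 1
  push_cast
  omega

open Classical in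
/-- The level of the meet. -/
noncomputable def mu (x y : T) : ℤ := x.lev + Nat.find (exists_R x y)

theorem R_iff (l : ℤ) (x y : T) : R l x y ↔ mu x y ≤ l := by
  classical
  constructor
  · rintro ⟨a, b, h1, h2⟩
    have : Nat.find (exists_R x y) ≤ a := Nat.find_min' _ ⟨a, b, h1, rfl⟩
    unfold mu
    have : (Nat.find (exists_R x y) : ℤ) ≤ a := by exact_mod_cast this
    linarith
  · intro h
    exact (Nat.find_spec (exists_R x y)).mono h

theorem mu_comm (x y : T) : mu x y = mu y x :=
  le_antisymm ((R_iff _ _ _).1 ((R_iff _ _ _).2 le_rfl).symm)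
    ((R_iff _ _ _).1 ((R_iff _ _ _).2 le_rfl).symm)

theorem mu_ultra (x y z : T) : mu x z ≤ max (mu x y) (mu y z) :=
  (R_iff _ _ _).1 (((R_iff _ _ _).2 (le_max_left _ _)).trans ((R_iff _ _ _).2 (le_max_right _ _)))

theorem lev_le_mu (x y : T) : x.lev ≤ mu x y := by
  unfold mu; omega

theorem lev_le_mu' (x y : T) : y.lev ≤ mu x y := by
  rw [mu_comm]; exact lev_le_mu _ _

theorem mu_self (x : T) : mu x x = x.lev :=
  le_antisymm ((R_iff _ _ _).1 (R.refl x)) (lev_le_mu _ _)

/-- The distance. -/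
noncomputable def d (x y : T) : ℤ := 2 * mu x y - x.lev - y.lev

theorem d_nonneg (x y : T) : 0 ≤ d x y := by
  have := lev_le_mu x y
  have := lev_le_mu' x y
  unfold d; omega

theorem d_comm (x y : T) : d x y = d y x := by unfold d; rw [mu_comm]; ring

theorem d_triangle (x y z : T) : d x z ≤ d x y + d y z := by
  have h1 := mu_ultra x y z
  have h2 := lev_le_mu' x y
  have h3 := lev_le_mu y z
  unfold d
  rcases le_max_iff.1 h1 with h | h <;> omega

theorem eq_of_d (x y : T) (h : d x y = 0) : x = y := by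
  have h2 := lev_le_mu' x y
  have h3 := lev_le_mu x y
  unfold d at h
  have h4 : mu x y ≤ x.lev := by omega
  obtain ⟨a, b, h5, h6⟩ := (R_iff _ _ _).2 h4
  have h7 := lev_of h5
  have ha : a = 0 := by omega
  have hb : b = 0 := by omega
  subst ha hb
  exact h5

/-- The four point inequality. -/
theorem four (w x y z : T) : mu x z + mu w y ≤ max (mu x y + mu w z) (mu y z + mu w x) := by
  have h1 := mu_ultra x y z
  have h2 := mu_ultra x w z
  have h3 := mu_ultra w x y
  have h4 := mu_ultra w z y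
  have h5 := mu_ultra x w y
  have h6 := mu_ultra w x z
  rw [mu_comm x w, mu_comm z y] at *
  grind

end T

end Pool.Agent.Q104.QP
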